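import Pool.Agent.helper69.LN.TSpec

/-!
# Row TSC of the project LN (MP_069684_lc): straight line computations give circuits

Adapted from helper28/LN/SFC.lean.
-/

set_option autoImplicit false

namespace Pool.Agent.LN

open Finset Pool.Agent.helper38.Neg Pool.Agent.helper55.NT

theorem TSC_len {n s : ℕ} (C : Circuit n s) (x y : Fin n → Bool) :
    (C.notVals x).length = (C.notVals y).length := by
  induction C with
  | nil => rfl
  | snoc C g ih =>
    cases g with
    | const b => exact ih
    | and i j => exact ih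
    | or i j => exact ih
    | not i =>
      show (C.notVals x ++ [!(C.val x i)]).length = (C.notVals y ++ [!(C.val y i)]).length
      rw [List.length_append, List.length_append, ih]
      rfl

theorem TSC_aux {n u q : ℕ} {L : List (Fn n)} (h : SX u L q) :
    ∃ C : Circuit n L.length, FewDep u q C ∧ ∀ f, Op L f → ∃ k, ∀ x, C.val x k = f x := by
  have key : ∀ (L : List (Fn n)) (C : Circuit n L.length)
      (hC : ∀ f, Op L f → ∃ k, ∀ x, C.val x k = f x) (g : Gate (n + L.length))
      (F : Fn n) (_ : ∀ x, g.eval (C.val x) = F x),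
      ∀ f, Op (F :: L) f → ∃ k, ∀ x, (Circuit.snoc C g).val x k = f x := by
    intro L C hC g F hF
    have hold : ∀ f, Op L f → ∃ k, ∀ x, (Circuit.snoc C g).val x k = f x := by
      intro f hf
      obtain ⟨k, hk⟩ := hC f hf
      refine ⟨Fin.castSucc k, fun x => ?_⟩
      rw [← hk x]
      simp [Circuit.val]
    intro f hf
    rcases hf with hf | hf
    · rcases List.mem_cons.1 hf with rfl | hf
      · refine ⟨Fin.last (n + L.length), fun x => ?_⟩
        rw [← hF x]
        simp [Circuit.val]
      · exact hold f (Or.inl hf)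
    · exact hold f (Or.inr hf)
  induction h with
  | nil =>
    refine ⟨Circuit.nil, ⟨∅, by simp, fun x y _ i _ => rfl⟩, ?_⟩
    rintro f (hf | ⟨i, rfl⟩)
    · simp at hf
    · exact ⟨i, fun x => rfl⟩
  | @const L q b _ ih =>
    obtain ⟨C, ⟨S, hS, hr⟩, hC⟩ := ih
    exact ⟨Circuit.snoc C (Gate.const b), ⟨S, hS, fun x y h i hi => hr x y h i hi⟩,
      key L C hC (Gate.const b) _ (fun x => rfl)⟩
  | @and L q f g _ hu hv ih =>
    obtain ⟨C, ⟨S, hS, hr⟩, hC⟩ := ih
    obtain ⟨i, hi⟩ := hC f hu
    obtain ⟨j, hj⟩ := hC g hv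
    exact ⟨Circuit.snoc C (Gate.and i j), ⟨S, hS, fun x y h i hi => hr x y h i hi⟩,
      key L C hC (Gate.and i j) _ (fun x => by simp [Gate.eval, hi, hj])⟩
  | @or L q f g _ hu hv ih =>
    obtain ⟨C, ⟨S, hS, hr⟩, hC⟩ := ih
    obtain ⟨i, hi⟩ := hC f hu
    obtain ⟨j, hj⟩ := hC g hv
    exact ⟨Circuit.snoc C (Gate.or i j), ⟨S, hS, fun x y h i hi => hr x y h i hi⟩,
      key L C hC (Gate.or i j) _ (fun x => by simp [Gate.eval, hi, hj])⟩
  | @not0 L q f _ hu hf ih =>
    obtain ⟨C, ⟨S, hS, hr⟩, hC⟩ := ih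
    obtain ⟨i, hi⟩ := hC f hu
    refine ⟨Circuit.snoc C (Gate.not i), ⟨S, hS, fun x y h j hj => ?_⟩,
      key L C hC (Gate.not i) _ (fun x => by simp [Gate.eval, hi])⟩
    show (C.notVals x ++ [!(C.val x i)])[j]? = (C.notVals y ++ [!(C.val y i)])[j]?
    have h1 := hr x y h j hj
    have h2 := TSC_len C x y
    rw [hi x, hi y, hf x y h]
    rw [List.getElem?_append, List.getElem?_append, h1, h2]
  | @not1 L q f _ hu ih =>
    obtain ⟨C, ⟨S, hS, hr⟩, hC⟩ := ih
    obtain ⟨i, hi⟩ := hC f hu
    refine ⟨Circuit.snoc C (Gate.not i), ⟨insert (C.notVals fun _ => false).length S,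
      (Finset.card_insert_le _ _).trans (Nat.succ_le_succ hS), fun x y h j hj => ?_⟩,
      key L C hC (Gate.not i) _ (fun x => by simp [Gate.eval, hi])⟩
    show (C.notVals x ++ [!(C.val x i)])[j]? = (C.notVals y ++ [!(C.val y i)])[j]?
    rw [Finset.mem_insert, not_or] at hj
    have h1 := hr x y h j hj.2
    have h2 := TSC_len C x (fun _ => false)
    have h3 := TSC_len C y (fun _ => false)
    rw [List.getElem?_append, List.getElem?_append, h1, h2, h3]
    split_ifs with h4
    · rfl
    · have h5 : ∀ b : Bool, [b][j - (C.notVals fun _ => false).length]? = none := by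
        intro b
        rw [List.getElem?_eq_none_iff, List.length_singleton]
        omega
      rw [h5, h5]

theorem TSC : TSC_stmt := fun _ _ _ _ h => TSC_aux h

end Pool.Agent.LN
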