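import Pool.Agent.helper69.LN.TSI
import Pool.Agent.helper69.LN.TSC
import Pool.Agent.helper65.LN.TFF
import Pool.Agent.helper96.LN.TFO
import Pool.Agent.helper51.LN.TFP
import Pool.Agent.helper41.LN.TGR
import Pool.Agent.helper74.LN.TLB
import Pool.Agent.helper19.LN.TNP
import Pool.Agent.helper99.LN.TPC
import Pool.Agent.helper25.LN.TQC
import Pool.Agent.helper45.LN.TTR
import Pool.Agent.helper43.LN.TUP
import Pool.Agent.helper45.LN.SUB
import Pool.Agent.helper28.LN.SFC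
import Pool.Agent.helper43.LN.ORC

/-!
# Project LN (MP_069684_lc), part T: the criteria with NOT gates and with NOT-vectors
-/

set_option autoImplicit false

namespace Pool.Agent.LN

open Finset Pool.Agent.helper38.Neg Pool.Agent.helper55.NT

/-- Polynomial size circuits with at most `2 ^ r n` NOT-vectors along every increasing sequence of
inputs which agree on the bits with index at least `u n`. -/
def PolyPat (u r : ℕ → ℕ) (A : Lang) : Prop :=
  ∃ p : Polynomial ℕ, ∀ n, ∃ s ≤ p.eval n, ∃ (C : Circuit n s) (o : Fin (n + s)),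
    C.Computes o (A n) ∧ LocPat (u n) (2 ^ r n) C

/-- Quasi-polynomial size circuits with at most `2 ^ r n` NOT-vectors along every increasing
sequence of inputs which agree on the bits with index at least `u n`. -/
def QuasiPat (u r : ℕ → ℕ) (A : Lang) : Prop :=
  ∃ k : ℕ, ∀ n, ∃ s ≤ 2 ^ (k * lg n ^ k), ∃ (C : Circuit n s) (o : Fin (n + s)),
    C.Computes o (A n) ∧ LocPat (u n) (2 ^ r n) C

theorem polyPat_of_few (u r : ℕ → ℕ) (A : Lang) (h : PolyFew u r A) : PolyPat u r A := by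
  obtain ⟨p, hp⟩ := h
  refine ⟨p, fun n => ?_⟩
  obtain ⟨s, hs, C, o, hC, hF⟩ := hp n
  exact ⟨s, hs, C, o, hC, TFP n s (u n) (r n) C hF⟩

theorem quasiPat_of_few (u r : ℕ → ℕ) (A : Lang) (h : QuasiFew u r A) : QuasiPat u r A := by
  obtain ⟨p, hp⟩ := h
  refine ⟨p, fun n => ?_⟩
  obtain ⟨s, hs, C, o, hC, hF⟩ := hp n
  exact ⟨s, hs, C, o, hC, TFP n s (u n) (r n) C hF⟩

theorem monoIn_of_monotone {n : ℕ} (u : ℕ) {f : (Fin n → Bool) → Prop} (h : Monotone f) :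
    MonoIn u f := fun _ _ hxy _ hx => h hxy hx

theorem TUP_all : TUP_stmt := TUP TSC TTR TSI TFF

theorem TGR_all : TGR_stmt := TGR (TLB SUB)

theorem TPC_all : TPC_stmt := TPC (ORC SFC) TUP_all TFO TNP TGR_all TFP

theorem TQC_all : TQC_stmt := TQC TUP_all TNP TGR_all TFP

/-- Polynomial size, the criterion. -/
theorem poly_tfae (u r : ℕ → ℕ) (hu : ∃ c, ∀ n, min (u n) n ≤ c * (2 ^ r n + lg n)) :
    [∀ A, InNPPoly A → InPPoly A,
      ∀ A, InNPPoly A → (∀ n, MonoIn (u n) (A n)) → PolyFew u r A,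
      ∀ A, InNPPoly A → (∀ n, Monotone (A n)) → PolyPat u r A].TFAE := by
  tfae_have 1 ↔ 2 := (TPC_all u r).1 hu
  tfae_have 2 → 3 := fun h A hA hm =>
    polyPat_of_few u r A (h A hA fun n => monoIn_of_monotone (u n) (hm n))
  tfae_have 3 → 1 := by
    intro h A hA
    obtain ⟨p, hp⟩ := h (dbl A) (dbl_inNPPoly A hA) (dbl_mono A)
    refine ⟨Polynomial.X + 2 * p.comp (Polynomial.X + Polynomial.X), fun n => ?_⟩
    obtain ⟨s, hs, C, o, hC, -⟩ := hp (n + n)
    obtain ⟨s', hs', C', o', h1⟩ := dbl_circuit A n s C o hC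
    refine ⟨s', hs'.trans ?_, C', o', h1⟩
    simp only [Polynomial.eval_add, Polynomial.eval_X, Polynomial.eval_mul,
      Polynomial.eval_ofNat, Polynomial.eval_comp]
    have : s ≤ p.eval (n + n) := hs
    omega
  tfae_finish

/-- Polynomial size, a necessary condition. -/
theorem poly_growth' (u r : ℕ → ℕ)
    (h : ∀ A, InNPPoly A → (∀ n, Monotone (A n)) → PolyPat u r A) :
    ∃ c, ∀ n, min (u n) n ≤ c * lg n ^ 5 * 2 ^ r n := by
  obtain ⟨g1, g2⟩ := TNP u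
  obtain ⟨p, hp⟩ := h (PL u) g1 g2
  obtain ⟨k, hk⟩ := eval_le_two_pow p
  exact TGR_all u (fun n => 2 ^ r n) k 1 (fun n => by
    obtain ⟨s, hs, C, o, hC, hF⟩ := hp n
    exact ⟨s, le_trans hs (hk n), C, o, hC, hF⟩)

theorem quasi_of_dbl (u r : ℕ → ℕ)
    (h : ∀ A, InNPPoly A → (∀ n, Monotone (A n)) → QuasiPat u r A) (A : Lang)
    (hA : InNPPoly A) : InQuasi A := by
  obtain ⟨k, hk⟩ := h (dbl A) (dbl_inNPPoly A hA) (dbl_mono A)
  refine ⟨k * 2 ^ k + k + 4, fun n => ?_⟩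
  obtain ⟨s, hs, C, o, hC, -⟩ := hk (n + n)
  obtain ⟨s', hs', C', o', h1⟩ := dbl_circuit A n s C o hC
  refine ⟨s', hs'.trans ?_, C', o', h1⟩
  have h2 : s ≤ 2 ^ (k * lg (n + n) ^ k) := hs
  have h3 : k * lg (n + n) ^ k ≤ k * 2 ^ k * lg n ^ k := by
    rw [mul_assoc, ← mul_pow]
    exact Nat.mul_le_mul_left _ (Nat.pow_le_pow_left (lg_two n) _)
  have h4 : 2 * s ≤ 2 ^ (k * 2 ^ k * lg n ^ k + 1) := by
    rw [pow_succ]
    have := h2.trans (Nat.pow_le_pow_right (by norm_num) h3)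
    omega
  have h5 : n ≤ 2 ^ (lg n + 1) := by
    have := lt_two_pow_lg n
    omega
  have h6 : n + 2 * s ≤ 2 ^ ((lg n + 1) + (k * 2 ^ k * lg n ^ k + 1) + 1) :=
    (Nat.add_le_add h5 h4).trans (two_pow_add _ _)
  refine h6.trans (Nat.pow_le_pow_right (by norm_num) ?_)
  set K := k * 2 ^ k + k + 4 with hK
  have a1 : lg n ^ k ≤ lg n ^ K := lg_pow_le n (by omega)
  have a2 : lg n ≤ lg n ^ K := Nat.le_self_pow (by omega) _
  have a3 : 1 ≤ lg n ^ K := Nat.one_le_pow _ _ (lg_pos n)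
  have a4 : k * 2 ^ k * lg n ^ k ≤ k * 2 ^ k * lg n ^ K := Nat.mul_le_mul_left _ a1
  have a5 : K * lg n ^ K = k * 2 ^ k * lg n ^ K + k * lg n ^ K + 4 * lg n ^ K := by
    rw [hK]; ring
  rw [a5]
  have a6 : 0 ≤ k * lg n ^ K := Nat.zero_le _
  omega

/-- Quasi-polynomial size, the exact criterion. -/
theorem quasi_tfae (u r : ℕ → ℕ) :
    [(∃ c, ∀ n, min (u n) n ≤ c * lg n ^ c * 2 ^ r n) ∧ ∀ A, InNPPoly A → InQuasi A,
      ∀ A, InNPPoly A → (∀ n, MonoIn (u n) (A n)) → QuasiFew u r A,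
      ∀ A, InNPPoly A → (∀ n, Monotone (A n)) → QuasiPat u r A].TFAE := by
  tfae_have 1 → 2 := (TQC_all u r).2
  tfae_have 2 → 3 := fun h A hA hm =>
    quasiPat_of_few u r A (h A hA fun n => monoIn_of_monotone (u n) (hm n))
  tfae_have 3 → 1 := by
    intro h
    refine ⟨?_, quasi_of_dbl u r h⟩
    obtain ⟨k, hk⟩ := h (PL u) (TNP u).1 (TNP u).2
    obtain ⟨c, hc⟩ := TGR_all u (fun n => 2 ^ r n) k k hk
    refine ⟨c + (4 * k + 1), fun n => (hc n).trans ?_⟩
    refine Nat.mul_le_mul_right _ (Nat.mul_le_mul (by omega) ?_)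
    exact Nat.pow_le_pow_right (lg_pos n) (by omega)
  tfae_finish

end Pool.Agent.LN
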