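import Pool.Agent.helper69.LN.MixLocal
import Pool.Agent.helper83.Mix.Final

/-!
# Project LN (MP_069684_lc): universal vertices

The `k`-clique function of graphs on `M` vertices is a projection of the `(k + j)`-clique function of
graphs on `M + j` vertices. So the global bound for mixed circuits holds for all clique sizes.
-/

set_option autoImplicit false

namespace Pool.Agent.LN

open Finset Pool.Agent.helper38.Neg Pool.Agent.helper55.NT Pool.Agent.Mix

/-- The projection: the last `j` vertices are joined to all vertices. -/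
def padσ (M j : ℕ) (i : Fin ((M + j) * (M + j))) : Fin (M * M) ⊕ Bool :=
  if h : ((finProdFinEquiv.symm i).1 : ℕ) < M ∧ ((finProdFinEquiv.symm i).2 : ℕ) < M then
    Sum.inl (finProdFinEquiv (⟨_, h.1⟩, ⟨_, h.2⟩)) else Sum.inr true

theorem pad_lt {M j : ℕ} (x : Fin (M * M) → Bool) (a b : Fin (M + j)) (ha : (a : ℕ) < M)
    (hb : (b : ℕ) < M) : sb (padσ M j) x (finProdFinEquiv (a, b)) =
      x (finProdFinEquiv (⟨a, ha⟩, ⟨b, hb⟩)) := by
  unfold sb padσ
  have h1 : (finProdFinEquiv.symm (finProdFinEquiv (a, b)) : Fin (M + j) × Fin (M + j)) = (a, b) :=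
    Equiv.symm_apply_apply _ _
  rw [dif_pos (by rw [h1]; exact ⟨ha, hb⟩)]
  simp only [Sum.elim_inl]
  congr 2
  · ext <;> simp [h1]

theorem pad_ge {M j : ℕ} (x : Fin (M * M) → Bool) (a b : Fin (M + j))
    (h : ¬ ((a : ℕ) < M ∧ (b : ℕ) < M)) : sb (padσ M j) x (finProdFinEquiv (a, b)) = true := by
  unfold sb padσ
  have h1 : (finProdFinEquiv.symm (finProdFinEquiv (a, b)) : Fin (M + j) × Fin (M + j)) = (a, b) :=
    Equiv.symm_apply_apply _ _
  rw [dif_neg (by rw [h1]; exact h)]
  rfl

theorem pad_clique (M j k : ℕ) (x : Fin (M * M) → Bool) :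
    Clique (M + j) (k + j) (sb (padσ M j) x) ↔ Clique M k x := by
  classical
  constructor
  · rintro ⟨S, hS, hc⟩
    -- the members of S below M
    let S' : Finset (Fin M) := Finset.univ.filter fun a => Fin.castAdd j a ∈ S
    have hcard : k ≤ S'.card := by
      have h1 : S ⊆ S'.map (Fin.castAddEmb j) ∪ Finset.univ.map (Fin.natAddEmb M (m := j)) := by
        intro a ha
        rw [Finset.mem_union]
        induction a using Fin.addCases with
        | left a =>
          left
          exact Finset.mem_map.2 ⟨a, by rw [Finset.mem_filter]; exact ⟨Finset.mem_univ _, ha⟩, rfl⟩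
        | right a =>
          right
          exact Finset.mem_map.2 ⟨a, Finset.mem_univ _, rfl⟩
      have h2 := (Finset.card_le_card h1).trans (Finset.card_union_le _ _)
      rw [Finset.card_map, Finset.card_map, Finset.card_univ, Fintype.card_fin, hS] at h2
      omega
    obtain ⟨T, hT, hTc⟩ := Finset.exists_subset_card_eq hcard
    refine ⟨T, hTc, fun a ha b hb hab => ?_⟩
    have ha' : Fin.castAdd j a ∈ S := (Finset.mem_filter.1 (hT ha)).2
    have hb' : Fin.castAdd j b ∈ S := (Finset.mem_filter.1 (hT hb)).2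
    have h3 := hc _ ha' _ hb' (by rw [Fin.lt_def]; exact hab)
    rw [pad_lt x _ _ a.2 b.2] at h3
    exact h3
  · rintro ⟨S, hS, hc⟩
    refine ⟨S.map (Fin.castAddEmb j) ∪ Finset.univ.map (Fin.natAddEmb M (m := j)), ?_, ?_⟩
    · rw [Finset.card_union_of_disjoint, Finset.card_map, Finset.card_map, Finset.card_univ,
        Fintype.card_fin, hS]
      rw [Finset.disjoint_left]
      intro a ha hb
      obtain ⟨a', _, rfl⟩ := Finset.mem_map.1 ha
      obtain ⟨b', _, hb'⟩ := Finset.mem_map.1 hb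
      have := congrArg Fin.val hb'
      simp at this
      omega
    · intro a ha b hb hab
      by_cases h : (a : ℕ) < M ∧ (b : ℕ) < M
      · rw [pad_lt x a b h.1 h.2]
        have key : ∀ c : Fin (M + j), ∀ hc' : (c : ℕ) < M,
            c ∈ S.map (Fin.castAddEmb j) ∪ Finset.univ.map (Fin.natAddEmb M (m := j)) →
            (⟨c, hc'⟩ : Fin M) ∈ S := by
          intro c hc' hmem
          rcases Finset.mem_union.1 hmem with h' | h'
          · obtain ⟨a', ha', rfl⟩ := Finset.mem_map.1 h'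
            exact ha'
          · obtain ⟨b', _, rfl⟩ := Finset.mem_map.1 h'
            simp at hc'
        exact hc _ (key a h.1 ha) _ (key b h.2 hb) (by rw [Fin.lt_def]; exact hab)
      · exact pad_ge x a b h

/-- The global bound for all clique sizes. -/
theorem mix_pad (ε : ℝ) (hε : 0 < ε) : ∃ δ : ℝ, 0 < δ ∧ ∃ M0 : ℕ, ∀ M : ℕ, M0 ≤ M →
    ∀ k : ℕ, (k : ℝ) ≤ (M : ℝ) ^ δ → ∀ (j s K : ℕ) (C : MixCircuit ((M + j) * (M + j)) s)
      (o : Fin ((M + j) * (M + j) + s)), C.Computes o (Clique (M + j) (k + j)) →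
      (C.PatternsLE K ∨ (C.BoolReads ∧
        (2 ^ C.reads.card ≤ K ∨ (C.MonoReads ∧ C.reads.card + 1 ≤ K)))) →
      (K : ℝ) ≤ ((M : ℝ) ^ 2) ^ (1 - ε) →
      (2 : ℝ) ^ (Real.sqrt k / 2 - 3) ≤ C.size + 1 := by
  obtain ⟨δ, hδ, M0, h⟩ := mix_final ε hε
  refine ⟨δ, hδ, M0, fun M hM k hk j s K C o hC hp hK => ?_⟩
  have hp' : C.PatternsLE K := patternsLE_of C hp
  obtain ⟨C', hsz, ρ, hρ, hrd⟩ := mix_sub ((M + j) * (M + j)) (M * M) s (padσ M j) C
  have hcomp : C'.Computes (ρ o) (Clique M k) := by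
    intro x
    rw [hρ x o]
    exact (hC _).trans (pad_clique M j k x)
  have hpat : C'.PatternsLE K := by
    intro x hx
    refine (mix_sub_pat (padσ M j) C C' ρ hρ hrd x).trans ?_
    exact hp' (fun i => sb (padσ M j) (x i)) (fun i i' hij => LBU_mono (padσ M j) (hx hij))
  have := h M hM k hk (2 + s) K C' (ρ o) hcomp (Or.inl hpat) hK
  rwa [hsz] at this

end Pool.Agent.LN
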