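import Pool.Agent.helper38.Neg.ClqFinal
import Pool.Agent.helper55.NT.Threshold

/-!
# Project LN (MP_069684_lc): negations are needed everywhere. Definitions
-/

set_option autoImplicit false

namespace Pool.Agent.LN

open Finset Pool.Agent.helper38.Neg Pool.Agent.helper55.NT

/-! ### Projections of the clique function -/

/-- The pairs `a < b`. -/
abbrev Pr (r : ℕ) : Type := {e : Fin r × Fin r // e.1 < e.2}

/-- The vertices touched by a set of edges. -/
def touch {M : ℕ} (U : Finset (Fin M × Fin M)) : Finset (Fin M) := U.image Prod.fst ∪ U.image Prod.snd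

/-- A star forest in `U` with edges indexed by the pairs of `r` points: `leaf e` is joined to the
centre `cen e`, the leaves are different and no leaf is a centre. -/
structure Star (M r : ℕ) (U : Finset (Fin M × Fin M)) : Type where
  leaf : Pr r → Fin M
  cen : Pr r → Fin M
  inj : Function.Injective leaf
  dis : ∀ e e', leaf e ≠ cen e'
  mem : ∀ e, (leaf e, cen e) ∈ U ∨ (cen e, leaf e) ∈ U

/-- The centres. -/
abbrev Ctr {M r : ℕ} (cen : Pr r → Fin M) : Type := {q : Fin M // ∃ e, cen e = q}

/-- The labels of the gadget graph: centres `q`; leaves `(e, true)` and their twins `(e, false)`;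
`(i, c)`: slot `i` holds the vertex `c`; `(ij, cd)`: the slots `i < j` hold `c < d`; universal
vertices. -/
abbrev Vt {M r : ℕ} (cen : Pr r → Fin M) (l w : ℕ) : Type :=
  Ctr cen ⊕ (Pr r × Bool) ⊕ (Fin l × Fin r) ⊕ (Pr l × Pr r) ⊕ Fin w

/-- The classes of labels. -/
abbrev Kl {M r : ℕ} (cen : Pr r → Fin M) (l w : ℕ) : Type :=
  Ctr cen ⊕ Pr r ⊕ Fin l ⊕ Pr l ⊕ Fin w

/-- The class of a label. -/
def cls {M r : ℕ} {cen : Pr r → Fin M} {l w : ℕ} : Vt cen l w → Kl cen l w
  | Sum.inl q => Sum.inl q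
  | Sum.inr (Sum.inl (e, _)) => Sum.inr (Sum.inl e)
  | Sum.inr (Sum.inr (Sum.inl (i, _))) => Sum.inr (Sum.inr (Sum.inl i))
  | Sum.inr (Sum.inr (Sum.inr (Sum.inl (ij, _)))) => Sum.inr (Sum.inr (Sum.inr (Sum.inl ij)))
  | Sum.inr (Sum.inr (Sum.inr (Sum.inr i))) => Sum.inr (Sum.inr (Sum.inr (Sum.inr i)))

/-- Conflicts between labels of different classes: the twin of `e` and `(ij, e)`; `(i, c)` and a
pair of slots containing `i` with another content. -/
def cf {M r : ℕ} {cen : Pr r → Fin M} {l w : ℕ} : Vt cen l w → Vt cen l w → Prop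
  | Sum.inr (Sum.inl (e, false)), Sum.inr (Sum.inr (Sum.inr (Sum.inl (_, cd)))) => e = cd
  | Sum.inr (Sum.inr (Sum.inl (i, c))), Sum.inr (Sum.inr (Sum.inr (Sum.inl (ij, cd)))) =>
      (i = ij.1.1 ∧ c ≠ cd.1.1) ∨ (i = ij.1.2 ∧ c ≠ cd.1.2)
  | _, _ => False

/-- The variable edges: the leaf of `e` and the centre of `e`. -/
def vr {M r : ℕ} {cen : Pr r → Fin M} {l w : ℕ} : Vt cen l w → Vt cen l w → Pr r → Prop
  | Sum.inr (Sum.inl (e, true)), Sum.inl q, e' => e = e' ∧ cen e = q.1
  | _, _, _ => False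

/-- Adjacency in the gadget graph of `x`. -/
def adj {M r : ℕ} {cen : Pr r → Fin M} {l w : ℕ} (x : Pr r → Bool) (α β : Vt cen l w) : Prop :=
  cls α ≠ cls β ∧ ¬ cf α β ∧ ¬ cf β α ∧ (∀ e, vr α β e → x e = true) ∧
    ∀ e, vr β α e → x e = true

/-- The input bit of the pair `e`. -/
def bit {r : ℕ} (x : Fin (r * r) → Bool) (e : Pr r) : Bool := x (finProdFinEquiv e.1)

/-- Inputs made by a projection: every bit is a constant or an input bit. -/
def sb {N n : ℕ} (σ : Fin N → Fin n ⊕ Bool) (x : Fin n → Bool) : Fin N → Bool :=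
  fun i => Sum.elim x id (σ i)

/-! ### Local patterns -/

/-- Two inputs agree outside the edge set `U`. -/
def AgreeOff {M : ℕ} (U : Finset (Fin M × Fin M)) (x y : Fin (M * M) → Bool) : Prop :=
  ∀ e : Fin M × Fin M, e ∉ U → x (finProdFinEquiv e) = y (finProdFinEquiv e)

/-- At most `K` NOT-vectors along every increasing sequence of inputs which agree outside `U`. -/
def LocalLE {M s : ℕ} (C : Circuit (M * M) s) (U : Finset (Fin M × Fin M)) (K : ℕ) : Prop :=
  ∀ x : ℕ → (Fin (M * M) → Bool), Monotone x → (∀ i j, AgreeOff U (x i) (x j)) →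
    (Set.range fun i => C.notVals (x i)).encard ≤ K

/-! ### Circuits whose NOT gates do not depend on the first `u` inputs -/

/-- Agreement on the inputs with index at least `u`. -/
def AgreeFrom (u : ℕ) {n : ℕ} (x y : Fin n → Bool) : Prop := ∀ i : Fin n, u ≤ (i : ℕ) → x i = y i

/-- The NOT gates do not depend on the first `u` inputs. -/
def FreeOf (u : ℕ) {n s : ℕ} (C : Circuit n s) : Prop :=
  ∀ x y, AgreeFrom u x y → C.notVals x = C.notVals y

/-- Monotone in the first `u` inputs. -/
def MonoIn (u : ℕ) {n : ℕ} (f : (Fin n → Bool) → Prop) : Prop :=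
  ∀ x y, x ≤ y → AgreeFrom u x y → f x → f y

/-- Polynomial size circuits whose NOT gates do not depend on the first `u n` inputs. -/
def PolyFree (u : ℕ → ℕ) (A : Lang) : Prop :=
  ∃ p : Polynomial ℕ, ∀ n, ∃ s ≤ p.eval n, ∃ (C : Circuit n s) (o : Fin (n + s)),
    C.Computes o (A n) ∧ FreeOf (u n) C

/-- Quasi-polynomial size circuits whose NOT gates do not depend on the first `u n` inputs. -/
def QuasiFree (u : ℕ → ℕ) (A : Lang) : Prop :=
  ∃ k : ℕ, ∀ n, ∃ s ≤ 2 ^ (k * lg n ^ k), ∃ (C : Circuit n s) (o : Fin (n + s)),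
    C.Computes o (A n) ∧ FreeOf (u n) C

/-- Straight line computations in which only functions of the inputs with index at least `u` are
negated. -/
inductive SF {n : ℕ} (u : ℕ) : List (Fn n) → Prop
  | nil : SF u []
  | const {L} (b : Bool) : SF u L → SF u ((fun _ => b) :: L)
  | and {L f g} : SF u L → Op L f → Op L g → SF u ((fun y => f y && g y) :: L)
  | or {L f g} : SF u L → Op L f → Op L g → SF u ((fun y => f y || g y) :: L)
  | not {L f} : SF u L → Op L f → (∀ x y, AgreeFrom u x y → f x = f y) →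
      SF u ((fun y => !(f y)) :: L)

/-- Padding: a word of length `n + c + n` is read as `n + c` dummy bits and a word of length `n`. -/
def Pd (c : ℕ) (A : Lang) : Lang := fun m x => ∃ (n : ℕ) (h : n + c + n = m),
  A n (fun i => x (Fin.cast h (Fin.natAdd (n + c) i)))

/-- The half clique language: `M = √n`, the first `M ^ 2` bits are an adjacency matrix. -/
def HC : Lang := fun n x => Clique (Nat.sqrt n) (Nat.sqrt n / 2)
  (fun i => x (Fin.castLE (Nat.sqrt_le n) i))

end Pool.Agent.LN
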