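import Pool.Agent.helper69.LN.Spec
import Pool.Agent.helper74.LN.LBU
import Pool.Agent.helper83.Mix.Defs

/-!
# Project LN (MP_069684_lc): the local bound for mixed circuits

Circuits with monotone real gates (counted) and arbitrary gates (free of charge), as in
`Pool/Agent/helper83/Mix/Defs.lean`. Substitution (`mix_sub`) and the local bound (`mix_local`) from
the global one (`MixFinal_stmt`) and the projection PRJ.
-/

set_option autoImplicit false

namespace Pool.Agent.LN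

open Finset Pool.Agent.helper38.Neg Pool.Agent.helper55.NT Pool.Agent.Mix

/-- the circuit with the two constant gates -/
noncomputable def mixBase (n : ℕ) : MixCircuit n 2 :=
  MixCircuit.free (N := 0) (MixCircuit.free (N := 0) (MixCircuit.nil : MixCircuit n 0)
    (fun _ => 0) (fun i => i.elim0)) (fun _ => 1) (fun i => i.elim0)

/-- the wire of a constant or of an input -/
def mixWire (n : ℕ) : Fin n ⊕ Bool → Fin (n + 2)
  | Sum.inl j => Fin.castSucc (Fin.castSucc j)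
  | Sum.inr false => Fin.castSucc (Fin.last n)
  | Sum.inr true => Fin.last (n + 1)

theorem mixBase_val (n : ℕ) (x : Fin n → Bool) (z : Fin n ⊕ Bool) :
    (mixBase n).val x (mixWire n z) = if Sum.elim x id z = true then 1 else 0 := by
  rcases z with j | b
  · show Fin.snoc (α := fun _ => ℝ) (Fin.snoc (α := fun _ => ℝ)
      (fun i : Fin n => if x i = true then (1 : ℝ) else 0) 0) 1
      (Fin.castSucc (Fin.castSucc j)) = _
    rw [Fin.snoc_castSucc, Fin.snoc_castSucc]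
    rfl
  · cases b
    · show Fin.snoc (α := fun _ => ℝ) (Fin.snoc (α := fun _ => ℝ)
        (fun i : Fin n => if x i = true then (1 : ℝ) else 0) 0) 1
        (Fin.castSucc (Fin.last n)) = _
      rw [Fin.snoc_castSucc, Fin.snoc_last]
      simp
    · show Fin.snoc (α := fun _ => ℝ) (Fin.snoc (α := fun _ => ℝ)
        (fun i : Fin n => if x i = true then (1 : ℝ) else 0) 0) 1
        (Fin.last (n + 1)) = _
      rw [Fin.snoc_last]
      simp

theorem mixBase_reads (n : ℕ) : (mixBase n).reads = ∅ := by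
  simp [mixBase, MixCircuit.reads]

/-- Substitution of inputs and constants: two more gates, which are free. -/
theorem mix_sub (N n s : ℕ) (σ : Fin N → Fin n ⊕ Bool) (C : MixCircuit N s) :
    ∃ C' : MixCircuit n (2 + s), C'.size = C.size ∧ ∃ ρ : Fin (N + s) → Fin (n + (2 + s)),
      (∀ x o, C'.val x (ρ o) = C.val (sb σ x) o) ∧ ∀ i ∈ C'.reads, ∃ j ∈ C.reads, ρ j = i := by
  induction C with
  | nil =>
    refine ⟨mixBase n, rfl, fun o => mixWire n (σ o), fun x o => ?_, fun i hi => ?_⟩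
    · rw [mixBase_val]
      rfl
    · rw [mixBase_reads] at hi
      exact absurd hi (Finset.notMem_empty i)
  | @mono s C φ hφ i j ih =>
    obtain ⟨C', hsz, ρ, hρ, hrd⟩ := ih
    refine ⟨MixCircuit.mono C' φ hφ (ρ i) (ρ j), congrArg (· + 1) hsz,
      Fin.snoc (α := fun _ => Fin (n + (2 + s) + 1)) (fun o => (ρ o).castSucc) (Fin.last _),
      fun x o => ?_, fun a ha => ?_⟩
    · refine Fin.lastCases ?_ (fun o => ?_) o
      · show Fin.snoc (α := fun _ => ℝ) (C'.val x) (φ (C'.val x (ρ i)) (C'.val x (ρ j)))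
          (Fin.snoc (α := fun _ => Fin (n + (2 + s) + 1)) (fun o => (ρ o).castSucc) (Fin.last _)
            (Fin.last (N + s))) =
          Fin.snoc (α := fun _ => ℝ) (C.val (sb σ x)) (φ (C.val (sb σ x) i) (C.val (sb σ x) j))
            (Fin.last (N + s))
        rw [Fin.snoc_last, Fin.snoc_last, Fin.snoc_last, hρ, hρ]
      · show Fin.snoc (α := fun _ => ℝ) (C'.val x) (φ (C'.val x (ρ i)) (C'.val x (ρ j)))
          (Fin.snoc (α := fun _ => Fin (n + (2 + s) + 1)) (fun o => (ρ o).castSucc) (Fin.last _)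
            (Fin.castSucc o)) =
          Fin.snoc (α := fun _ => ℝ) (C.val (sb σ x)) (φ (C.val (sb σ x) i) (C.val (sb σ x) j))
            (Fin.castSucc o)
        rw [Fin.snoc_castSucc, Fin.snoc_castSucc, Fin.snoc_castSucc, hρ]
    · obtain ⟨b, hb, rfl⟩ := Finset.mem_map.1
        (show a ∈ C'.reads.map Fin.castSuccEmb from ha)
      obtain ⟨c, hc, rfl⟩ := hrd b hb
      refine ⟨Fin.castSucc c, ?_, ?_⟩
      · show Fin.castSucc c ∈ C.reads.map Fin.castSuccEmb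
        exact Finset.mem_map_of_mem Fin.castSuccEmb hc
      · show Fin.snoc (α := fun _ => Fin (n + (2 + s) + 1)) (fun o => (ρ o).castSucc)
          (Fin.last _) (Fin.castSucc c) = _
        rw [Fin.snoc_castSucc]
        rfl
  | @free s C m g w ih =>
    obtain ⟨C', hsz, ρ, hρ, hrd⟩ := ih
    refine ⟨MixCircuit.free C' g (fun k => ρ (w k)), hsz,
      Fin.snoc (α := fun _ => Fin (n + (2 + s) + 1)) (fun o => (ρ o).castSucc) (Fin.last _),
      fun x o => ?_, fun a ha => ?_⟩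
    · refine Fin.lastCases ?_ (fun o => ?_) o
      · show Fin.snoc (α := fun _ => ℝ) (C'.val x) (g fun k => C'.val x (ρ (w k)))
          (Fin.snoc (α := fun _ => Fin (n + (2 + s) + 1)) (fun o => (ρ o).castSucc) (Fin.last _)
            (Fin.last (N + s))) =
          Fin.snoc (α := fun _ => ℝ) (C.val (sb σ x)) (g fun k => C.val (sb σ x) (w k))
            (Fin.last (N + s))
        rw [Fin.snoc_last, Fin.snoc_last, Fin.snoc_last]
        simp only [hρ]
      · show Fin.snoc (α := fun _ => ℝ) (C'.val x) (g fun k => C'.val x (ρ (w k)))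
          (Fin.snoc (α := fun _ => Fin (n + (2 + s) + 1)) (fun o => (ρ o).castSucc) (Fin.last _)
            (Fin.castSucc o)) =
          Fin.snoc (α := fun _ => ℝ) (C.val (sb σ x)) (g fun k => C.val (sb σ x) (w k))
            (Fin.castSucc o)
        rw [Fin.snoc_castSucc, Fin.snoc_castSucc, Fin.snoc_castSucc, hρ]
    · obtain ⟨b, hb, rfl⟩ := Finset.mem_map.1
        (show a ∈ (C'.reads ∪ Finset.univ.image fun k => ρ (w k)).map Fin.castSuccEmb from ha)
      have hb' : ∃ c ∈ C.reads ∪ Finset.univ.image w, ρ c = b := by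
        rcases Finset.mem_union.1 hb with h | h
        · obtain ⟨c, hc, hcb⟩ := hrd b h
          exact ⟨c, Finset.mem_union_left _ hc, hcb⟩
        · obtain ⟨k, _, hk⟩ := Finset.mem_image.1 h
          exact ⟨w k, Finset.mem_union_right _ (Finset.mem_image_of_mem w (Finset.mem_univ k)), hk⟩
      obtain ⟨c, hc, rfl⟩ := hb'
      refine ⟨Fin.castSucc c, ?_, ?_⟩
      · show Fin.castSucc c ∈ (C.reads ∪ Finset.univ.image w).map Fin.castSuccEmb
        exact Finset.mem_map_of_mem Fin.castSuccEmb hc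
      · show Fin.snoc (α := fun _ => Fin (n + (2 + s) + 1)) (fun o => (ρ o).castSucc)
          (Fin.last _) (Fin.castSucc c) = _
        rw [Fin.snoc_castSucc]
        rfl

/-- The patterns of the substituted circuit are functions of the patterns of the circuit. -/
theorem mix_sub_pat {N n s : ℕ} (σ : Fin N → Fin n ⊕ Bool) (C : MixCircuit N s)
    (C' : MixCircuit n (2 + s)) (ρ : Fin (N + s) → Fin (n + (2 + s)))
    (hρ : ∀ x o, C'.val x (ρ o) = C.val (sb σ x) o) (hrd : ∀ i ∈ C'.reads, ∃ j ∈ C.reads, ρ j = i)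
    (x : ℕ → (Fin n → Bool)) :
    (Set.range fun j => C'.pat (x j)).encard ≤
      (Set.range fun j => C.pat (sb σ (x j))).encard := by
  choose f hf hfρ using hrd
  have h : (Set.range fun j => C'.pat (x j)) =
      (fun (p : C.reads → ℝ) (i : C'.reads) => p ⟨f i.1 i.2, hf i.1 i.2⟩) ''
        (Set.range fun j => C.pat (sb σ (x j))) := by
    rw [← Set.range_comp]
    congr 1
    funext j i
    show C'.val (x j) i.1 = C.val (sb σ (x j)) (f i.1 i.2)
    rw [← hρ, hfρ]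
  rw [h]
  exact Set.encard_image_le _ _

/-- The global bound (proved by helper83 in Pool/Agent/helper83/Mix/Final.lean). -/
def MixFinal_stmt : Prop := ∀ ε : ℝ, 0 < ε → ∃ δ : ℝ, 0 < δ ∧ ∃ M0 : ℕ, ∀ M : ℕ, M0 ≤ M →
  ∀ k : ℕ, (k : ℝ) ≤ (M : ℝ) ^ δ → ∀ (s K : ℕ) (C : MixCircuit (M * M) s) (o : Fin (M * M + s)),
  C.Computes o (Clique M k) → C.PatternsLE K → (K : ℝ) ≤ ((M : ℝ) ^ 2) ^ (1 - ε) →
  (2 : ℝ) ^ (Real.sqrt k / 2 - 3) ≤ C.size + 1

/-- The set of input positions of a set of edges. -/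
def pos {M : ℕ} (U : Finset (Fin M × Fin M)) : Finset (Fin (M * M)) :=
  U.map finProdFinEquiv.toEmbedding

/-- The local bound. -/
def MixLocal_stmt : Prop := ∀ ε : ℝ, 0 < ε → ∃ δ : ℝ, 0 < δ ∧ ∃ v0 : ℕ, ∀ v : ℕ, v0 ≤ v →
  ∀ M k : ℕ, 2 * v ≤ k → k + v ^ 2 ≤ M → ∀ U : Finset (Fin M × Fin M), (∀ e ∈ U, e.1 < e.2) →
  v ≤ (touch U).card → ∀ (s K : ℕ) (C : MixCircuit (M * M) s) (o : Fin (M * M + s)),
  C.Computes o (Clique M k) → C.LocalLE (pos U) K → (K : ℝ) ≤ (v : ℝ) ^ (1 - ε) →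
  (2 : ℝ) ^ ((v : ℝ) ^ δ) ≤ C.size

/-- Growth (copy of helper74/LN/GLB.lean). -/
theorem mix_growth (d : ℝ) (hd : 0 < d) (hd1 : d ≤ 1) (v r : ℕ) (hv : v ≤ 4 * r ^ 2)
    (hbig : (10 : ℝ) ^ (1 / (d / 8)) ≤ v) :
    (v : ℝ) ^ (d / 8) + 2 ≤ Real.sqrt (⌊(r : ℝ) ^ d⌋₊ : ℝ) / 2 - 3 := by
  have hv0 : (0 : ℝ) < v := lt_of_lt_of_le (by positivity) hbig
  have hvR : (v : ℝ) ≤ 4 * (r : ℝ) ^ 2 := by exact_mod_cast hv
  obtain ⟨y, hy⟩ : ∃ y : ℝ, y = (v : ℝ) ^ (d / 8) := ⟨_, rfl⟩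
  have hy10 : 10 ≤ y := by
    rw [hy]
    calc (10 : ℝ) = ((10 : ℝ) ^ (1 / (d / 8))) ^ (d / 8) := by
          rw [← Real.rpow_mul (by norm_num)]
          have : 1 / (d / 8) * (d / 8) = 1 := by field_simp
          rw [this, Real.rpow_one]
      _ ≤ _ := Real.rpow_le_rpow (by positivity) hbig (by linarith)
  have hy4 : y ^ 4 = (v : ℝ) ^ (d / 2) := by
    rw [hy, ← Real.rpow_natCast, ← Real.rpow_mul hv0.le]
    congr 1
    push_cast
    ring
  have hr : y ^ 4 / 2 ≤ (r : ℝ) ^ d := by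
    have h1 : (v : ℝ) ^ (d / 2) ≤ (4 * (r : ℝ) ^ 2) ^ (d / 2) :=
      Real.rpow_le_rpow hv0.le hvR (by linarith)
    have h2 : (4 * (r : ℝ) ^ 2) ^ (d / 2) = 2 ^ d * (r : ℝ) ^ d := by
      have h3 : (4 * (r : ℝ) ^ 2) = (2 * (r : ℝ)) ^ (2 : ℝ) := by
        rw [Real.rpow_two]
        ring
      rw [h3, ← Real.rpow_mul (by positivity)]
      have : (2 : ℝ) * (d / 2) = d := by ring
      rw [this, Real.mul_rpow (by norm_num) (by positivity)]
    have h4 : (2 : ℝ) ^ d ≤ 2 := by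
      calc (2 : ℝ) ^ d ≤ (2 : ℝ) ^ (1 : ℝ) :=
            Real.rpow_le_rpow_of_exponent_le (by norm_num) hd1
        _ = 2 := Real.rpow_one _
    have h5 : (2 : ℝ) ^ d * (r : ℝ) ^ d ≤ 2 * (r : ℝ) ^ d :=
      mul_le_mul_of_nonneg_right h4 (by positivity)
    rw [hy4]
    linarith
  have hl : y ^ 4 / 2 - 1 ≤ (⌊(r : ℝ) ^ d⌋₊ : ℝ) := by
    have := Nat.lt_floor_add_one ((r : ℝ) ^ d)
    linarith
  have hs : 2 * (y + 5) ≤ Real.sqrt (⌊(r : ℝ) ^ d⌋₊ : ℝ) := by
    apply Real.le_sqrt_of_sq_le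
    have h1 : (2 * (y + 5)) ^ 2 ≤ y ^ 4 / 2 - 1 := by
      have h2 : 100 * y ^ 2 ≤ y ^ 4 := by nlinarith [sq_nonneg y, sq_nonneg (y - 10)]
      nlinarith
    linarith
  rw [← hy]
  linarith

/-- The local bound from the global one. -/
theorem mix_local (h1 : PRJ_stmt) (h3 : MixFinal_stmt) : MixLocal_stmt := by
  intro ε₀ hε₀
  obtain ⟨ε, hε⟩ : ∃ ε : ℝ, ε = min ε₀ 1 := ⟨_, rfl⟩
  have hεp : 0 < ε := by rw [hε]; exact lt_min hε₀ one_pos
  have hε1 : ε ≤ 1 := by rw [hε]; exact min_le_right _ _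
  have hεε : ε ≤ ε₀ := by rw [hε]; exact min_le_left _ _
  obtain ⟨δ₁, hδ₁, M₁, hfin⟩ := h3 (ε / 2) (by linarith)
  obtain ⟨d, hd⟩ : ∃ d : ℝ, d = min δ₁ 1 := ⟨_, rfl⟩
  have hdp : 0 < d := by rw [hd]; exact lt_min hδ₁ one_pos
  have hd1 : d ≤ 1 := by rw [hd]; exact min_le_right _ _
  have hdδ : d ≤ δ₁ := by rw [hd]; exact min_le_left _ _
  refine ⟨d / 8, by linarith, max (max 4 (M₁ ^ 2))
    (max ⌈(10 : ℝ) ^ (1 / (d / 8))⌉₊ ⌈4 * (4 : ℝ) ^ (2 / ε)⌉₊), ?_⟩
  intro v hv M k hvk hkM U hU hUv s K C o hC hloc hK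
  have hv4 : 4 ≤ v := (le_max_left _ _).trans ((le_max_left _ _).trans hv)
  have hvM : M₁ ^ 2 ≤ v := (le_max_right _ _).trans ((le_max_left _ _).trans hv)
  have hv10 : (10 : ℝ) ^ (1 / (d / 8)) ≤ v := (Nat.le_ceil _).trans
    (by exact_mod_cast (le_max_left _ _).trans ((le_max_right _ _).trans hv))
  have hve : 4 * (4 : ℝ) ^ (2 / ε) ≤ v := (Nat.le_ceil _).trans
    (by exact_mod_cast (le_max_right _ _).trans ((le_max_right _ _).trans hv))
  obtain ⟨r, hr⟩ : ∃ r : ℕ, r = Nat.sqrt v := ⟨_, rfl⟩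
  have hrv : r ^ 2 ≤ v := by rw [hr, sq]; exact Nat.sqrt_le v
  have hr2 : 2 ≤ r := by rw [hr, Nat.le_sqrt]; omega
  have hrM : M₁ ≤ r := by rw [hr, Nat.le_sqrt, ← sq]; exact hvM
  have hvr : v ≤ 4 * r ^ 2 := by
    have h : v < (r + 1) * (r + 1) := by rw [hr]; exact Nat.lt_succ_sqrt v
    nlinarith
  obtain ⟨l, hl⟩ : ∃ l : ℕ, l = ⌊(r : ℝ) ^ d⌋₊ := ⟨_, rfl⟩
  have hr1R : (1 : ℝ) ≤ r := by exact_mod_cast (by omega : 1 ≤ r)
  have hlr : l ≤ r := by
    have h : (r : ℝ) ^ d ≤ r := by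
      calc (r : ℝ) ^ d ≤ (r : ℝ) ^ (1 : ℝ) := Real.rpow_le_rpow_of_exponent_le hr1R hd1
        _ = r := Real.rpow_one _
    rw [hl]
    exact Nat.floor_le_of_le h
  have hlδ : (l : ℝ) ≤ (r : ℝ) ^ δ₁ := by
    rw [hl]
    exact (Nat.floor_le (by positivity)).trans (Real.rpow_le_rpow_of_exponent_le hr1R hdδ)
  obtain ⟨σ, hσ1, hσ2⟩ := h1 M r l k U hU (hrv.trans hUv) hr2 hlr (by omega)
    (by
      have : r ^ 4 ≤ v ^ 2 := by
        calc r ^ 4 = (r ^ 2) ^ 2 := by ring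
          _ ≤ v ^ 2 := Nat.pow_le_pow_left hrv 2
      omega)
  obtain ⟨C', hsz, ρ, hρ, hrd⟩ := mix_sub (M * M) (r * r) s σ C
  have hcomp : C'.Computes (ρ o) (Clique r l) := by
    intro x
    rw [hρ x o]
    exact (hC (sb σ x)).trans (hσ1 x)
  have hpat : C'.PatternsLE K := by
    intro x hx
    refine (mix_sub_pat σ C C' ρ hρ hrd x).trans ?_
    refine hloc (fun i => sb σ (x i)) (fun i j hij => LBU_mono σ (hx hij)) ?_
    intro j j' i hi
    obtain ⟨e, rfl⟩ := finProdFinEquiv.surjective i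
    have he : e ∉ U := fun h => hi (Finset.mem_map_of_mem _ h)
    show Sum.elim (x j) id (σ (finProdFinEquiv e)) = Sum.elim (x j') id (σ (finProdFinEquiv e))
    rcases hs : σ (finProdFinEquiv e) with a | b
    · exact absurd (hσ2 e a hs) he
    · rfl
  have hv1R : (1 : ℝ) ≤ v := by exact_mod_cast (by omega : 1 ≤ v)
  have hK' : (K : ℝ) ≤ ((r : ℝ) ^ 2) ^ (1 - ε / 2) := by
    calc (K : ℝ) ≤ (v : ℝ) ^ (1 - ε₀) := hK
      _ ≤ (v : ℝ) ^ (1 - ε) := Real.rpow_le_rpow_of_exponent_le hv1R (by linarith)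
      _ ≤ _ := LBU_pow ε hεp hε1 v r (by omega) hvr hve
  have hfin' := hfin r hrM l hlδ (2 + s) K C' (ρ o) hcomp hpat hK'
  have hg := mix_growth d hdp hd1 v r hvr hv10
  rw [← hl] at hg
  have h6 : (2 : ℝ) ^ ((v : ℝ) ^ (d / 8) + 2) ≤ (2 : ℝ) ^ (Real.sqrt (l : ℝ) / 2 - 3) :=
    Real.rpow_le_rpow_of_exponent_le (by norm_num) hg
  have h4 : (2 : ℝ) ^ ((v : ℝ) ^ (d / 8) + 2) = 4 * (2 : ℝ) ^ ((v : ℝ) ^ (d / 8)) := by
    rw [Real.rpow_add (by norm_num), Real.rpow_two]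
    ring
  have h5 : (1 : ℝ) ≤ (2 : ℝ) ^ ((v : ℝ) ^ (d / 8)) :=
    Real.one_le_rpow (by norm_num) (by positivity)
  rw [hsz] at hfin'
  linarith

end Pool.Agent.LN
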