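import Pool.Agent.helper83.Mix.Final
import Pool.Agent.helper69.LN.MixLocal
import Pool.Agent.helper15.LN.STAR
import Pool.Agent.helper48.LN.GA
import Pool.Agent.helper48.LN.ARI
import Pool.Agent.helper32.LN.GB
import Pool.Agent.helper44.LN.EMB
import Pool.Agent.helper35.LN.PRJ
import Pool.Agent.helper45.LN.SUB
import Pool.Agent.helper74.LN.LBU
import Pool.Agent.helper28.LN.SFC
import Pool.Agent.helper43.LN.ORC
import Pool.Agent.helper19.LN.PNP
import Pool.Agent.helper20.LN.PCI
import Pool.Agent.helper96.LN.PMO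
import Pool.Agent.helper99.LN.PCR
import Pool.Agent.helper41.LN.GRO
import Pool.Agent.helper13.LN.HNP
import Pool.Agent.helper25.LN.QCR

/-!
# Project LN (MP_069684_lc): the rows together
-/

set_option autoImplicit false

namespace Pool.Agent.LN

open Pool.Agent.helper38.Neg Pool.Agent.helper55.NT Pool.Agent.Mix

theorem PRJ_all : PRJ_stmt := PRJ STAR GA GB EMB

theorem GRO_all : GRO_stmt := GRO (LBU PRJ_all SUB) SUB

theorem mix_final_all : MixFinal_stmt := by
  intro ε hε
  obtain ⟨δ, hδ, M0, h⟩ := mix_final ε hε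
  exact ⟨δ, hδ, M0, fun M hM k hk s K C o hC hp hK => h M hM k hk s K C o hC (Or.inl hp) hK⟩

theorem mix_local_all : MixLocal_stmt := mix_local PRJ_all mix_final_all

theorem PCR_all : PCR_stmt := PCR (ORC SFC) PNP (PCI SUB) PMO ARI

theorem QCR_all : QCR_stmt := QCR (ORC SFC) PNP (PCI SUB) PMO ARI GRO_all HNP

end Pool.Agent.LN
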