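import Pool.Agent.helper55.NT.Defs

/-!
# MP_069684_lc: NOT gates and NOT-vectors on the first `u` input bits (for NegationThreshold)
-/

set_option autoImplicit false

namespace Pool.Agent.LNB

open Pool.Agent.helper38.Neg Pool.Agent.helper55.NT

/-- Agreement on the inputs with index at least `u`. -/
def AgreeFrom (u : ℕ) {n : ℕ} (x y : Fin n → Bool) : Prop := ∀ i : Fin n, u ≤ (i : ℕ) → x i = y i

/-- Monotone in the first `u` inputs. -/
def MonoIn (u : ℕ) {n : ℕ} (f : (Fin n → Bool) → Prop) : Prop :=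
  ∀ x y, x ≤ y → AgreeFrom u x y → f x → f y

/-- All NOT gates, except at most `r` of them, do not depend on the first `u` inputs. -/
def FewDep (u r : ℕ) {n s : ℕ} (C : Circuit n s) : Prop :=
  ∃ S : Finset ℕ, S.card ≤ r ∧ ∀ x y, AgreeFrom u x y → ∀ i, i ∉ S →
    (C.notVals x)[i]? = (C.notVals y)[i]?

/-- At most `K` NOT-vectors along every increasing sequence of inputs which agree on the inputs with
index at least `u`. -/
def LocPat (u K : ℕ) {n s : ℕ} (C : Circuit n s) : Prop :=
  ∀ x : ℕ → (Fin n → Bool), Monotone x → (∀ i j, AgreeFrom u (x i) (x j)) →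
    (Set.range fun i => C.notVals (x i)).encard ≤ K

/-- Polynomial size circuits in which at most `r n` NOT gates depend on the first `u n` inputs. -/
def PolyFew (u r : ℕ → ℕ) (A : Lang) : Prop :=
  ∃ p : Polynomial ℕ, ∀ n, ∃ s ≤ p.eval n, ∃ (C : Circuit n s) (o : Fin (n + s)),
    C.Computes o (A n) ∧ FewDep (u n) (r n) C

/-- Polynomial size circuits with at most `2 ^ r n` NOT-vectors along every increasing sequence of
inputs which agree on the bits with index at least `u n`. -/
def PolyPat (u r : ℕ → ℕ) (A : Lang) : Prop :=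
  ∃ p : Polynomial ℕ, ∀ n, ∃ s ≤ p.eval n, ∃ (C : Circuit n s) (o : Fin (n + s)),
    C.Computes o (A n) ∧ LocPat (u n) (2 ^ r n) C

/-- Quasi-polynomial size circuits in which at most `r n` NOT gates depend on the first `u n`
inputs. -/
def QuasiFew (u r : ℕ → ℕ) (A : Lang) : Prop :=
  ∃ k : ℕ, ∀ n, ∃ s ≤ 2 ^ (k * lg n ^ k), ∃ (C : Circuit n s) (o : Fin (n + s)),
    C.Computes o (A n) ∧ FewDep (u n) (r n) C

/-- Quasi-polynomial size circuits with at most `2 ^ r n` NOT-vectors along every increasing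
sequence of inputs which agree on the bits with index at least `u n`. -/
def QuasiPat (u r : ℕ → ℕ) (A : Lang) : Prop :=
  ∃ k : ℕ, ∀ n, ∃ s ≤ 2 ^ (k * lg n ^ k), ∃ (C : Circuit n s) (o : Fin (n + s)),
    C.Computes o (A n) ∧ LocPat (u n) (2 ^ r n) C

end Pool.Agent.LNB
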