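import Pool.Agent.helper69.LN.EST

/-!
# Project LN, row EMT: one more forest, a matching
-/

set_option autoImplicit false

namespace Pool.Agent.LN

open Finset Pool.Agent.helper38.Neg Pool.Agent.helper55.NT Pool.Agent.Mix

theorem EMT_side {M r K : ℕ} {E : Finset (Fin M × Fin M)} (P : Pcs M r K E) (q : Fin K)
    (B : Finset (Fin M))
    (hB : ∀ e, (P.leaf q e ∈ B ∧ P.cen q e ∉ B) ∨ (P.leaf q e ∉ B ∧ P.cen q e ∈ B)) :
    ((P.vtx q).filter (· ∈ B)).card ≤ r ^ 2 := by
  classical
  have h1 : (P.vtx q).filter (· ∈ B) ⊆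
      Finset.univ.image (fun e => if P.leaf q e ∈ B then P.leaf q e else P.cen q e) := by
    intro a ha
    obtain ⟨h1, h2⟩ := Finset.mem_filter.1 ha
    unfold Pcs.vtx at h1
    rcases Finset.mem_union.1 h1 with h | h
    · obtain ⟨e, _, rfl⟩ := Finset.mem_image.1 h
      exact Finset.mem_image.2 ⟨e, Finset.mem_univ _, if_pos h2⟩
    · obtain ⟨e, _, rfl⟩ := Finset.mem_image.1 h
      refine Finset.mem_image.2 ⟨e, Finset.mem_univ _, if_neg ?_⟩
      rcases hB e with ⟨_, h4⟩ | ⟨h3, _⟩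
      · exact absurd h2 h4
      · exact h3
  refine (Finset.card_le_card h1).trans (Finset.card_image_le.trans ?_)
  rw [Finset.card_univ]
  exact EST_pr r

/-- A greedy matching. -/
theorem EMT_match {M : ℕ} (H H' : Finset (Fin M × Fin M)) (hH : H' ⊆ H) (D : ℕ)
    (h1 : ∀ b, (H.filter fun e => e.2 = b).card < D) (h2 : ∀ a, (H.filter fun e => e.1 = a).card < D)
    (hc : 2 * D * D ≤ H'.card) : ∀ m ≤ D, ∃ N : Finset (Fin M × Fin M), N ⊆ H' ∧ N.card = m ∧
      Set.InjOn Prod.fst (N : Set (Fin M × Fin M)) ∧ Set.InjOn Prod.snd (N : Set (Fin M × Fin M)) := by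
  classical
  intro m
  induction m with
  | zero =>
    intro _
    exact ⟨∅, Finset.empty_subset _, rfl, by simp, by simp⟩
  | succ m ih =>
    intro hm
    obtain ⟨N, hN, hcard, hf, hs⟩ := ih (by omega)
    -- the edges that meet N
    let Q : Finset (Fin M × Fin M) := N.biUnion fun e =>
      (H.filter fun f => f.1 = e.1) ∪ (H.filter fun f => f.2 = e.2)
    have hQ : Q.card ≤ m * (2 * D) := by
      rw [← hcard]
      refine Finset.card_biUnion_le_card_mul _ _ _ fun e _ => ?_
      refine (Finset.card_union_le _ _).trans ?_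
      have := h1 e.2
      have := h2 e.1
      omega
    have hlt : Q.card < H'.card := by
      refine lt_of_le_of_lt hQ (lt_of_lt_of_le ?_ hc)
      have hD : 0 < D := by omega
      calc m * (2 * D) < D * (2 * D) := by
            refine Nat.mul_lt_mul_of_pos_right ?_ (by omega)
            omega
        _ = 2 * D * D := by ring
    obtain ⟨f, hfH, hfQ⟩ : ∃ f ∈ H', f ∉ Q := by
      by_contra hcon
      push Not at hcon
      exact absurd (Finset.card_le_card (fun f hf' => hcon f hf')) (not_le.2 hlt)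
    have hno : ∀ e ∈ N, f.1 ≠ e.1 ∧ f.2 ≠ e.2 := by
      intro e he
      constructor
      · intro h
        exact hfQ (Finset.mem_biUnion.2 ⟨e, he, Finset.mem_union_left _
          (Finset.mem_filter.2 ⟨hH hfH, h⟩)⟩)
      · intro h
        exact hfQ (Finset.mem_biUnion.2 ⟨e, he, Finset.mem_union_right _
          (Finset.mem_filter.2 ⟨hH hfH, h⟩)⟩)
    have hfN : f ∉ N := fun h => (hno f h).1 rfl
    refine ⟨insert f N, ?_, ?_, ?_, ?_⟩
    · intro e he
      rcases Finset.mem_insert.1 he with rfl | h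
      · exact hfH
      · exact hN h
    · rw [Finset.card_insert_of_notMem hfN, hcard]
    · intro a ha b hb hab
      rw [Finset.mem_coe, Finset.mem_insert] at ha hb
      rcases ha with rfl | ha <;> rcases hb with rfl | hb
      · rfl
      · exact absurd hab (hno b hb).1
      · exact absurd hab.symm (hno a ha).1
      · exact hf ha hb hab
    · intro a ha b hb hab
      rw [Finset.mem_coe, Finset.mem_insert] at ha hb
      rcases ha with rfl | ha <;> rcases hb with rfl | hb
      · rfl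
      · exact absurd hab (hno b hb).2
      · exact absurd hab.symm (hno a ha).2
      · exact hs ha hb hab

theorem EMT : EMT_stmt := by
  classical
  intro M r K A E P hE hd2 hd1 hcard
  have hside : ∀ q e, (P.leaf q e ∈ A ∧ P.cen q e ∉ A) ∨ (P.leaf q e ∉ A ∧ P.cen q e ∈ A) := by
    intro q e
    rcases P.mem q e with h | h
    · exact Or.inl (hE _ h)
    · exact Or.inr ⟨(hE _ h).2, (hE _ h).1⟩
  have hsideA : ∀ q, ((P.vtx q).filter (· ∈ A)).card ≤ r ^ 2 := fun q =>
    EMT_side P q A (hside q)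
  have hsideB : ∀ q, ((P.vtx q).filter (· ∈ Aᶜ)).card ≤ r ^ 2 := by
    intro q
    refine EMT_side P q Aᶜ fun e => ?_
    rw [Finset.mem_compl, Finset.mem_compl, not_not, not_not]
    rcases hside q e with ⟨h3, h4⟩ | ⟨h3, h4⟩
    · exact Or.inr ⟨h3, h4⟩
    · exact Or.inl ⟨h3, h4⟩
  let W : Finset (Fin M) := Finset.univ.biUnion P.vtx
  have hWA : (W.filter (· ∈ A)).card ≤ K * r ^ 2 := by
    have h1 : W.filter (· ∈ A) ⊆ Finset.univ.biUnion fun q => (P.vtx q).filter (· ∈ A) := by
      intro a ha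
      obtain ⟨h1, h2⟩ := Finset.mem_filter.1 ha
      obtain ⟨q, _, hq⟩ := Finset.mem_biUnion.1 h1
      exact Finset.mem_biUnion.2 ⟨q, Finset.mem_univ _, Finset.mem_filter.2 ⟨hq, h2⟩⟩
    refine (Finset.card_le_card h1).trans ?_
    have := Finset.card_biUnion_le_card_mul Finset.univ
      (fun q => (P.vtx q).filter (· ∈ A)) (r ^ 2) fun q _ => hsideA q
    rwa [Finset.card_univ, Fintype.card_fin] at this
  have hWB : (W.filter (· ∈ Aᶜ)).card ≤ K * r ^ 2 := by
    have h1 : W.filter (· ∈ Aᶜ) ⊆ Finset.univ.biUnion fun q => (P.vtx q).filter (· ∈ Aᶜ) := by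
      intro a ha
      obtain ⟨h1, h2⟩ := Finset.mem_filter.1 ha
      obtain ⟨q, _, hq⟩ := Finset.mem_biUnion.1 h1
      exact Finset.mem_biUnion.2 ⟨q, Finset.mem_univ _, Finset.mem_filter.2 ⟨hq, h2⟩⟩
    refine (Finset.card_le_card h1).trans ?_
    have := Finset.card_biUnion_le_card_mul Finset.univ
      (fun q => (P.vtx q).filter (· ∈ Aᶜ)) (r ^ 2) fun q _ => hsideB q
    rwa [Finset.card_univ, Fintype.card_fin] at this
  let H := freeE P
  let H' := H.filter fun e => e.1 ∉ W ∧ e.2 ∉ W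
  have c1 : (E \ H).card ≤ K * r ^ 4 := by
    have h1 : E \ H ⊆ Finset.univ.biUnion fun q =>
        ((P.vtx q).filter (· ∈ A)) ×ˢ ((P.vtx q).filter (· ∈ Aᶜ)) := by
      intro e he
      obtain ⟨h1, h2⟩ := Finset.mem_sdiff.1 he
      have h3 : ¬ ∀ q, ¬ (e.1 ∈ P.vtx q ∧ e.2 ∈ P.vtx q) := fun h =>
        h2 (Finset.mem_filter.2 ⟨h1, h⟩)
      rw [not_forall] at h3
      obtain ⟨q, hq⟩ := h3
      rw [not_not] at hq
      refine Finset.mem_biUnion.2 ⟨q, Finset.mem_univ _, Finset.mem_product.2 ⟨?_, ?_⟩⟩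
      · exact Finset.mem_filter.2 ⟨hq.1, (hE e h1).1⟩
      · exact Finset.mem_filter.2 ⟨hq.2, Finset.mem_compl.2 (hE e h1).2⟩
    refine (Finset.card_le_card h1).trans ?_
    have := Finset.card_biUnion_le_card_mul Finset.univ
      (fun q => ((P.vtx q).filter (· ∈ A)) ×ˢ ((P.vtx q).filter (· ∈ Aᶜ))) (r ^ 4) fun q _ => by
        rw [Finset.card_product]
        calc _ ≤ r ^ 2 * r ^ 2 := Nat.mul_le_mul (hsideA q) (hsideB q)
          _ = r ^ 4 := by ring
    rwa [Finset.card_univ, Fintype.card_fin] at this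
  have c2 : (H.filter fun e => e.1 ∈ W).card ≤ K * r ^ 4 := by
    have h1 : (H.filter fun e => e.1 ∈ W) ⊆
        (W.filter (· ∈ A)).biUnion fun a => H.filter fun e => e.1 = a := by
      intro e he
      obtain ⟨h1, h2⟩ := Finset.mem_filter.1 he
      have h3 : e ∈ E := (Finset.mem_filter.1 h1).1
      exact Finset.mem_biUnion.2 ⟨e.1, Finset.mem_filter.2 ⟨h2, (hE e h3).1⟩,
        Finset.mem_filter.2 ⟨h1, rfl⟩⟩
    refine (Finset.card_le_card h1).trans ?_
    refine (Finset.card_biUnion_le_card_mul _ _ (r ^ 2) fun a _ => (hd1 a).le).trans ?_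
    calc _ ≤ K * r ^ 2 * r ^ 2 := Nat.mul_le_mul_right _ hWA
      _ = K * r ^ 4 := by ring
  have c3 : (H.filter fun e => e.2 ∈ W).card ≤ K * r ^ 4 := by
    have h1 : (H.filter fun e => e.2 ∈ W) ⊆
        (W.filter (· ∈ Aᶜ)).biUnion fun a => H.filter fun e => e.2 = a := by
      intro e he
      obtain ⟨h1, h2⟩ := Finset.mem_filter.1 he
      have h3 : e ∈ E := (Finset.mem_filter.1 h1).1
      exact Finset.mem_biUnion.2 ⟨e.2, Finset.mem_filter.2 ⟨h2, Finset.mem_compl.2 (hE e h3).2⟩,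
        Finset.mem_filter.2 ⟨h1, rfl⟩⟩
    refine (Finset.card_le_card h1).trans ?_
    refine (Finset.card_biUnion_le_card_mul _ _ (r ^ 2) fun a _ => (hd2 a).le).trans ?_
    calc _ ≤ K * r ^ 2 * r ^ 2 := Nat.mul_le_mul_right _ hWB
      _ = K * r ^ 4 := by ring
  have c4 : E.card ≤ (E \ H).card + ((H.filter fun e => e.1 ∈ W).card +
      (H.filter fun e => e.2 ∈ W).card) + H'.card := by
    have h1 : E ⊆ ((E \ H) ∪ ((H.filter fun e => e.1 ∈ W) ∪ (H.filter fun e => e.2 ∈ W))) ∪ H' := by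
      intro e he
      by_cases h : e ∈ H
      · by_cases h1 : e.1 ∈ W
        · exact Finset.mem_union_left _ (Finset.mem_union_right _ (Finset.mem_union_left _
            (Finset.mem_filter.2 ⟨h, h1⟩)))
        · by_cases h2 : e.2 ∈ W
          · exact Finset.mem_union_left _ (Finset.mem_union_right _ (Finset.mem_union_right _
              (Finset.mem_filter.2 ⟨h, h2⟩)))
          · exact Finset.mem_union_right _ (Finset.mem_filter.2 ⟨h, h1, h2⟩)
      · exact Finset.mem_union_left _ (Finset.mem_union_left _ (Finset.mem_sdiff.2 ⟨he, h⟩))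
    refine (Finset.card_le_card h1).trans ((Finset.card_union_le _ _).trans ?_)
    refine Nat.add_le_add_right ((Finset.card_union_le _ _).trans ?_) _
    exact Nat.add_le_add_left (Finset.card_union_le _ _) _
  have c5 : 2 * r ^ 4 ≤ H'.card := by
    have e1 : 3 * K * r ^ 4 = K * r ^ 4 + (K * r ^ 4 + K * r ^ 4) := by ring
    rw [e1] at hcard
    omega
  obtain ⟨N, hN, hNc, hf, hs⟩ := EMT_match H H' (Finset.filter_subset _ _) (r ^ 2) hd2 hd1
    (le_trans (le_of_eq (by ring)) c5) (r ^ 2) le_rfl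
  obtain ⟨g⟩ : Nonempty (Pr r ↪ {e // e ∈ N}) := by
    refine Function.Embedding.nonempty_of_card_le ?_
    rw [Fintype.card_coe, hNc]
    exact EST_pr r
  have hg : ∀ f, (g f).1 ∈ E ∧ (g f).1.1 ∉ W ∧ (g f).1.2 ∉ W := by
    intro f
    obtain ⟨h1, h2⟩ := Finset.mem_filter.1 (hN (g f).2)
    exact ⟨(Finset.mem_filter.1 h1).1, h2⟩
  have hW : ∀ q a, a ∈ P.vtx q → a ∈ W := fun q a ha =>
    Finset.mem_biUnion.2 ⟨q, Finset.mem_univ _, ha⟩
  refine ESN M r K E P (fun f => (g f).1.1) (fun f => (g f).1.2) ?_ ?_ ?_ ?_ ?_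
  · intro f f' hff
    apply g.injective
    apply Subtype.ext
    exact hf (g f).2 (g f').2 hff
  · intro e e' h
    have h1 := (hE _ (hg e).1).1
    have h2 := (hE _ (hg e').1).2
    change (g e).1.1 = (g e').1.2 at h
    rw [h] at h1
    exact h2 h1
  · intro e
    exact Or.inl (hg e).1
  · rintro q e ⟨h1, _⟩
    exact (hg e).2.1 (hW q _ h1)
  · rintro q e ⟨h1, _⟩
    have hlv : P.leaf q e ∈ W := hW q _
      (Finset.mem_union_left _ (Finset.mem_image.2 ⟨e, Finset.mem_univ _, rfl⟩))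
    rcases Finset.mem_union.1 h1 with h | h
    · obtain ⟨f, _, hf'⟩ := Finset.mem_image.1 h
      rw [← hf'] at hlv
      exact (hg f).2.1 hlv
    · obtain ⟨f, _, hf'⟩ := Finset.mem_image.1 h
      rw [← hf'] at hlv
      exact (hg f).2.2 hlv

end Pool.Agent.LN
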