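import Pool.Agent.helper69.LN.ESpec

/-!
# Project LN, row EPC: `K` star forests in every large set of edges
-/

set_option autoImplicit false

namespace Pool.Agent.LN

open Finset Pool.Agent.helper38.Neg Pool.Agent.helper55.NT Pool.Agent.Mix

theorem EPC (h1 : ECU_stmt) (h2 : EST_stmt) (h3 : EMT_stmt) : EPC_stmt := by
  intro M r K U hU hcard
  obtain ⟨A, E, hE, hUE⟩ := h1 M U hU
  have h3K : 3 * K * r ^ 4 ≤ E.card := by
    have : 2 * (3 * K * r ^ 4) ≤ 2 * E.card := by
      calc 2 * (3 * K * r ^ 4) = 6 * K * r ^ 4 := by ring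
        _ ≤ U.card := hcard
        _ ≤ 2 * E.card := hUE
    omega
  have hcut : ∀ e ∈ E, e.1 ∈ A ∧ e.2 ∉ A := fun e he => ⟨(hE e he).1, (hE e he).2.1⟩
  have key : ∀ m ≤ K, Nonempty (Pcs M r m E) := by
    intro m
    induction m with
    | zero =>
      intro _
      exact ⟨⟨fun q => q.elim0, fun q => q.elim0, fun q => q.elim0, fun q => q.elim0,
        fun q => q.elim0, fun q => q.elim0⟩⟩
    | succ m ih =>
      intro hm
      obtain ⟨P⟩ := ih (by omega)
      by_cases hs : (∃ b, r ^ 2 ≤ ((freeE P).filter fun e => e.2 = b).card) ∨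
          ∃ a, r ^ 2 ≤ ((freeE P).filter fun e => e.1 = a).card
      · exact h2 M r m A E P hcut hs
      · rw [not_or, not_exists, not_exists] at hs
        refine h3 M r m A E P hcut (fun b => not_le.1 (hs.1 b)) (fun a => not_le.1 (hs.2 a)) ?_
        refine le_trans ?_ h3K
        calc 3 * m * r ^ 4 + 2 * r ^ 4 ≤ 3 * m * r ^ 4 + 3 * r ^ 4 := by
              have : 0 ≤ r ^ 4 := Nat.zero_le _
              omega
          _ = 3 * (m + 1) * r ^ 4 := by ring
          _ ≤ 3 * K * r ^ 4 := by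
              refine Nat.mul_le_mul_right _ ?_
              omega
  obtain ⟨P⟩ := key K le_rfl
  refine ⟨⟨P.leaf, P.cen, P.inj, P.dis, ?_, P.ind⟩⟩
  intro q e
  rcases P.mem q e with h | h
  · rcases (hE _ h).2.2 with h' | h'
    · exact Or.inl h'
    · exact Or.inr h'
  · rcases (hE _ h).2.2 with h' | h'
    · exact Or.inr h'
    · exact Or.inl h'

end Pool.Agent.LN
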