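import Pool.Agent.helper69.LN.ESpec

/-!
# Row EWK of the project LN (MP_069684_lc): OR of clique functions on disjoint blocks
-/

set_option autoImplicit false

namespace Pool.Agent.LN

open Finset Pool.Agent.helper38.Neg Pool.Agent.helper55.NT Pool.Agent.Mix
open Pool.Agent.helper83.Comb

/-- The input made of the graphs `c q`. -/
def EWK_G (K r : ℕ) (c : ℕ → Edge r → Bool) : Fin (K * (r * r)) → Bool := fun i =>
  if h : (finProdFinEquiv.symm (finProdFinEquiv.symm i).2 : Fin r × Fin r).1 <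
      (finProdFinEquiv.symm (finProdFinEquiv.symm i).2 : Fin r × Fin r).2 then
    c ((finProdFinEquiv.symm i).1 : ℕ) ⟨finProdFinEquiv.symm (finProdFinEquiv.symm i).2, h⟩
  else false

theorem EWK_val (K r : ℕ) (c : ℕ → Edge r → Bool) (q : Fin K) (u v : Fin r) (h : u < v) :
    EWK_G K r c (finProdFinEquiv (q, finProdFinEquiv (u, v))) = c q ⟨(u, v), h⟩ := by
  have h1 : (finProdFinEquiv.symm (finProdFinEquiv (q, finProdFinEquiv (u, v))) :
      Fin K × Fin (r * r)) = (q, finProdFinEquiv (u, v)) := Equiv.symm_apply_apply _ _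
  have h2 : (finProdFinEquiv.symm (finProdFinEquiv (u, v)) : Fin r × Fin r) = (u, v) :=
    Equiv.symm_apply_apply _ _
  have h3 : (finProdFinEquiv.symm (finProdFinEquiv.symm
      (finProdFinEquiv (q, finProdFinEquiv (u, v))) : Fin K × Fin (r * r)).2 : Fin r × Fin r) =
      (u, v) := by rw [h1]; exact h2
  unfold EWK_G
  rw [dif_pos (by rw [h3]; exact h)]
  have h4 : ((finProdFinEquiv.symm (finProdFinEquiv (q, finProdFinEquiv (u, v))) :
      Fin K × Fin (r * r)).1 : ℕ) = q := by rw [h1]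
  rw [h4]
  congr 1
  exact Subtype.ext h3

theorem EWK_or (K r l : ℕ) (c : ℕ → Edge r → Bool) :
    OrClique K r l (EWK_G K r c) ↔ ∃ j < K, ClqFn r l (c j) := by
  constructor
  · rintro ⟨q, S, hS, hc⟩
    refine ⟨q, q.2, S, hS, fun e he1 he2 => ?_⟩
    have := hc e.1.1 he1 e.1.2 he2 e.2
    dsimp only at this
    rw [EWK_val K r c q e.1.1 e.1.2 e.2] at this
    exact this
  · rintro ⟨j, hj, S, hS, hc⟩
    refine ⟨⟨j, hj⟩, S, hS, fun u hu v hv huv => ?_⟩
    show EWK_G K r c (finProdFinEquiv (⟨j, hj⟩, finProdFinEquiv (u, v))) = true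
    rw [EWK_val K r c ⟨j, hj⟩ u v huv]
    exact hc ⟨(u, v), huv⟩ hu hv

theorem EWK : EWK_stmt := by
  intro K t l s ht hl C o hC hpat
  classical
  have hl2 : 2 ≤ l := by
    have : 3 * 3 ≤ t ^ 2 := by rw [sq]; exact Nat.mul_le_mul ht ht
    omega
  obtain ⟨L, hL, hlen, N, F, θ, hF, hFθ⟩ := mix_walk C o (OrClique K (l * (8 * t ^ 2)) l)
    (ClqFn (l * (8 * t ^ 2)) l) (EWK_G K (l * (8 * t ^ 2))) (by
      intro i
      by_cases h : (finProdFinEquiv.symm (finProdFinEquiv.symm i).2 :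
          Fin (l * (8 * t ^ 2)) × Fin (l * (8 * t ^ 2))).1 <
          (finProdFinEquiv.symm (finProdFinEquiv.symm i).2 :
            Fin (l * (8 * t ^ 2)) × Fin (l * (8 * t ^ 2))).2
      · right
        exact ⟨_, _, fun c => dif_pos h⟩
      · left
        intro c
        exact dif_neg h) (EWK_or K (l * (8 * t ^ 2)) l) (by
      rintro ⟨S, hS, hc⟩
      have hone : 1 < S.card := by omega
      obtain ⟨u, hu, v, hv, huv⟩ := Finset.one_lt_card.1 hone
      rcases lt_or_gt_of_ne huv with hlt | hgt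
      · exact absurd (hc ⟨(u, v), hlt⟩ hu hv) (by simp)
      · exact absurd (hc ⟨(v, u), hgt⟩ hv hu) (by simp)) hC hpat
  have h1 := rclq_lower ht hl le_rfl hL F hF θ hFθ
  have h2 : 2 ^ t = 2 * 2 ^ (t - 1) := by
    rw [← pow_succ']; congr 1; omega
  omega

end Pool.Agent.LN
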