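import Pool.Agent.helper69.LN.MixLocal

/-!
# Project LN (MP_069684_lc): half clique needs arbitrary gates at almost all edges

From the local bound: in a mixed circuit of quasi-polynomial size for half clique all edges but
polylogarithmically many influence a value that is read by an arbitrary gate.
-/

set_option autoImplicit false

namespace Pool.Agent.LN

open Finset Pool.Agent.helper38.Neg Pool.Agent.helper55.NT Pool.Agent.Mix

/-- The edges `a < b` that do not influence the values read by the free gates. -/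
def quiet {M s : ℕ} (C : MixCircuit (M * M) s) : Set (Fin M × Fin M) :=
  {e | e.1 < e.2 ∧ ∀ x y, (∀ i, i ≠ finProdFinEquiv e → x i = y i) → C.pat x = C.pat y}

theorem mem_pos {M : ℕ} (U : Finset (Fin M × Fin M)) (e : Fin M × Fin M) :
    finProdFinEquiv e ∈ pos U ↔ e ∈ U := by
  unfold pos
  constructor
  · intro h
    obtain ⟨e', he', h'⟩ := Finset.mem_map.1 h
    have : e' = e := finProdFinEquiv.injective h'
    rwa [← this]
  · intro h
    exact Finset.mem_map_of_mem _ h

theorem quiet_pat {M s : ℕ} (C : MixCircuit (M * M) s) (P : Finset (Fin M × Fin M))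
    (hP : ∀ e ∈ P, e ∈ quiet C) : ∀ x y, (∀ i, i ∉ pos P → x i = y i) → C.pat x = C.pat y := by
  classical
  induction P using Finset.induction_on with
  | empty =>
    intro x y h
    have : x = y := funext fun i => h i (by simp [pos])
    rw [this]
  | insert e P he ih =>
    intro x y h
    have h1 := ih (fun e' he' => hP e' (Finset.mem_insert_of_mem he'))
    have h2 := (hP e (Finset.mem_insert_self e P)).2
    let z : Fin (M * M) → Bool := Function.update x (finProdFinEquiv e) (y (finProdFinEquiv e))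
    have hxz : C.pat x = C.pat z := by
      refine h2 x z (fun i hi => ?_)
      simp only [z]
      rw [Function.update_of_ne hi]
    have hzy : C.pat z = C.pat y := by
      refine h1 z y (fun i hi => ?_)
      by_cases hie : i = finProdFinEquiv e
      · subst hie
        simp only [z]
        rw [Function.update_self]
      · simp only [z]
        rw [Function.update_of_ne hie]
        refine h i ?_
        intro hmem
        obtain ⟨e', rfl⟩ := finProdFinEquiv.surjective i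
        rw [mem_pos] at hmem hi
        rcases Finset.mem_insert.1 hmem with rfl | h'
        · exact hie rfl
        · exact hi h'
    rw [hxz, hzy]

theorem quiet_local {M s : ℕ} (C : MixCircuit (M * M) s) (P : Finset (Fin M × Fin M))
    (hP : ∀ e ∈ P, e ∈ quiet C) : C.LocalLE (pos P) 1 := by
  intro x _ hx
  have hsub : (Set.range fun j => C.pat (x j)) ⊆ {C.pat (x 0)} := by
    rintro _ ⟨j, rfl⟩
    exact quiet_pat C P hP (x j) (x 0) (fun i hi => hx j 0 i hi)
  calc (Set.range fun j => C.pat (x j)).encard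
      ≤ ({C.pat (x 0)} : Set _).encard := Set.encard_le_encard hsub
    _ = 1 := Set.encard_singleton _
    _ ≤ ((1 : ℕ) : ℕ∞) := by norm_num

theorem card_le_touch {M : ℕ} (P : Finset (Fin M × Fin M)) : P.card ≤ (touch P).card ^ 2 := by
  have h : P ⊆ touch P ×ˢ touch P := by
    intro e he
    rw [Finset.mem_product]
    exact ⟨Finset.mem_union_left _ (Finset.mem_image_of_mem _ he),
      Finset.mem_union_right _ (Finset.mem_image_of_mem _ he)⟩
  have h1 := Finset.card_le_card h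
  rw [Finset.card_product] at h1
  rw [sq]
  exact h1

/-- The consequence for half clique. -/
def MixHalf_stmt : Prop := ∀ k : ℕ, ∃ c : ℕ, ∀ (M s : ℕ) (C : MixCircuit (M * M) s)
  (o : Fin (M * M + s)), C.Computes o (Clique M (M / 2)) → C.size ≤ 2 ^ (k * lg M ^ k) →
  (quiet C).ncard ≤ c * lg M ^ c

theorem half_lg (n : ℕ) : 1 ≤ lg n := by
  unfold lg
  exact Nat.log_pos (by norm_num) (by omega)

theorem half_nat (b t M v : ℕ) (hb : v ≤ b) (hv : v = min t (Nat.sqrt M / 4)) (ht : t ≤ M) :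
    t ≤ (4 * b + 4) ^ 2 := by
  have hmono : (4 * v + 4) ^ 2 ≤ (4 * b + 4) ^ 2 := Nat.pow_le_pow_left (by omega) 2
  refine le_trans ?_ hmono
  rcases le_total t (Nat.sqrt M / 4) with h | h
  · have hv' : v = t := by rw [hv, min_eq_left h]
    subst hv'
    have h2 : 4 * v + 4 ≤ (4 * v + 4) ^ 2 := Nat.le_self_pow (by norm_num) _
    omega
  · have hv' : v = Nat.sqrt M / 4 := by rw [hv, min_eq_right h]
    have h1 : Nat.sqrt M + 1 ≤ 4 * v + 4 := by omega
    have h2 : M < (Nat.sqrt M + 1) * (Nat.sqrt M + 1) := Nat.lt_succ_sqrt _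
    have h4 := Nat.mul_le_mul h1 h1
    rw [sq]
    omega

theorem mix_half (h1 : MixLocal_stmt) : MixHalf_stmt := by
  classical
  intro k₁
  obtain ⟨δ, hδ, v0, hLB⟩ := h1 (1 / 2) (by norm_num)
  obtain ⟨t, ht⟩ := exists_nat_gt (1 / δ)
  obtain ⟨v1, hv1⟩ : ∃ v1, v1 = max v0 2 := ⟨_, rfl⟩
  obtain ⟨B, hB⟩ : ∃ B, B = 4 * v1 + 4 + 4 * (k₁ + 1) ^ t := ⟨_, rfl⟩
  refine ⟨B ^ 4 + 4 * (k₁ * t), ?_⟩
  intro M s C o hC hs
  obtain ⟨L, hL⟩ : ∃ L, L = lg M := ⟨_, rfl⟩
  have hL1 : 1 ≤ L := by rw [hL]; exact half_lg M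
  rw [← hL] at hs ⊢
  obtain ⟨P, hP⟩ : ∃ P : Finset (Fin M × Fin M), P = Finset.univ.filter (· ∈ quiet C) := ⟨_, rfl⟩
  have hPq : ∀ e, e ∈ P ↔ e ∈ quiet C := by
    intro e
    rw [hP, Finset.mem_filter]
    exact ⟨fun h => h.2, fun h => ⟨Finset.mem_univ _, h⟩⟩
  have hcard : (quiet C).ncard = P.card := by
    rw [← Set.ncard_coe_finset]
    congr 1
    ext e
    exact (hPq e).symm
  rw [hcard]
  obtain ⟨T, hT⟩ : ∃ T, T = (touch P).card := ⟨_, rfl⟩
  have hTM : T ≤ M := by
    rw [hT]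
    have := Finset.card_le_univ (touch P)
    rwa [Fintype.card_fin] at this
  obtain ⟨v, hv⟩ : ∃ v, v = min T (Nat.sqrt M / 4) := ⟨_, rfl⟩
  have hvb : v ≤ v1 + ((k₁ + 1) * L ^ k₁) ^ t := by
    rcases lt_or_ge v v1 with hlt | hge
    · omega
    · have hv0 : v0 ≤ v := by omega
      have hv2 : 2 ≤ v := by omega
      have hvS : v ≤ Nat.sqrt M / 4 := by rw [hv]; exact min_le_right _ _
      have hvT : v ≤ T := by rw [hv]; exact min_le_left _ _
      have hS : Nat.sqrt M * Nat.sqrt M ≤ M := Nat.sqrt_le _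
      have hS1 : 4 * v ≤ Nat.sqrt M := by omega
      have hS2 : 4 * v * (4 * v) ≤ M := le_trans (Nat.mul_le_mul hS1 hS1) hS
      have hvv : 2 * v ≤ v * v := Nat.mul_le_mul_right v hv2
      have hA : 2 * v ≤ M / 2 := by
        have : 4 * v ≤ M := by nlinarith
        omega
      have hBn : M / 2 + v ^ 2 ≤ M := by
        have : 2 * v ^ 2 ≤ M := by nlinarith
        omega
      have hmain := hLB v hv0 M (M / 2) hA hBn P (fun e he => ((hPq e).1 he).1)
        (hvT.trans hT.le) s 1 C o hC (quiet_local C P fun e he => (hPq e).1 he) (by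
          have hv1' : (1 : ℝ) ≤ (v : ℝ) := by exact_mod_cast le_trans (by norm_num) hv2
          have := Real.one_le_rpow hv1' (show (0 : ℝ) ≤ 1 - 1 / 2 by norm_num)
          simpa using this)
      have hs2 : C.size ≤ 2 ^ ((k₁ + 1) * L ^ k₁) := by
        refine hs.trans (Nat.pow_le_pow_right (by norm_num) ?_)
        exact Nat.mul_le_mul_right _ (by omega)
      have h8 : (2 : ℝ) ^ ((v : ℝ) ^ δ) ≤ (2 : ℝ) ^ ((((k₁ + 1) * L ^ k₁ : ℕ)) : ℝ) := by
        rw [Real.rpow_natCast]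
        refine le_trans hmain ?_
        exact_mod_cast hs2
      have h9 : (v : ℝ) ^ δ ≤ (((k₁ + 1) * L ^ k₁ : ℕ) : ℝ) :=
        (Real.rpow_le_rpow_left_iff (by norm_num)).1 h8
      have hvpos : (0 : ℝ) ≤ (v : ℝ) := Nat.cast_nonneg _
      have h10 : (v : ℝ) ≤ ((((k₁ + 1) * L ^ k₁ : ℕ)) : ℝ) ^ (1 / δ) := by
        have := Real.rpow_le_rpow (Real.rpow_nonneg hvpos δ) h9
          (show (0 : ℝ) ≤ 1 / δ by positivity)
        rw [← Real.rpow_mul hvpos] at this
        rwa [mul_one_div_cancel hδ.ne', Real.rpow_one] at this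
      have hone : (1 : ℝ) ≤ (((k₁ + 1) * L ^ k₁ : ℕ) : ℝ) := by
        have h4 : 1 ≤ L ^ k₁ := Nat.one_le_pow _ _ hL1
        have : 1 ≤ (k₁ + 1) * L ^ k₁ := by nlinarith
        exact_mod_cast this
      have h11 : (v : ℝ) ≤ ((((k₁ + 1) * L ^ k₁ : ℕ)) : ℝ) ^ (t : ℝ) :=
        le_trans h10 (Real.rpow_le_rpow_of_exponent_le hone ht.le)
      rw [Real.rpow_natCast] at h11
      have h12 : v ≤ ((k₁ + 1) * L ^ k₁) ^ t := by exact_mod_cast h11
      omega
  have hfin := half_nat (v1 + ((k₁ + 1) * L ^ k₁) ^ t) T M v hvb hv hTM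
  have e1 : 4 * (v1 + ((k₁ + 1) * L ^ k₁) ^ t) + 4 ≤ B * L ^ (k₁ * t) := by
    have h4 : 1 ≤ L ^ (k₁ * t) := Nat.one_le_pow _ _ hL1
    have h5 : ((k₁ + 1) * L ^ k₁) ^ t = (k₁ + 1) ^ t * L ^ (k₁ * t) := by
      rw [mul_pow, ← pow_mul]
    rw [h5, hB]
    nlinarith
  calc P.card ≤ T ^ 2 := by rw [hT]; exact card_le_touch P
    _ ≤ ((4 * (v1 + ((k₁ + 1) * L ^ k₁) ^ t) + 4) ^ 2) ^ 2 := Nat.pow_le_pow_left hfin 2
    _ = (4 * (v1 + ((k₁ + 1) * L ^ k₁) ^ t) + 4) ^ 4 := by ring
    _ ≤ (B * L ^ (k₁ * t)) ^ 4 := Nat.pow_le_pow_left e1 4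
    _ = B ^ 4 * L ^ (4 * (k₁ * t)) := by
        rw [mul_pow, ← pow_mul]
        congr 2
        ring
    _ ≤ (B ^ 4 + 4 * (k₁ * t)) * L ^ (B ^ 4 + 4 * (k₁ * t)) :=
        Nat.mul_le_mul (Nat.le_add_right _ _)
          (Nat.pow_le_pow_right hL1 (Nat.le_add_left _ _))

end Pool.Agent.LN
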