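import Pool.Agent.helper69.LN.ESpec
import Pool.Agent.helper69.LN.MixHalf

/-!
# Project LN (MP_069684_lc): half clique, from the local bound for every set of edges
-/

set_option autoImplicit false

namespace Pool.Agent.LN

open Finset Pool.Agent.helper38.Neg Pool.Agent.helper55.NT Pool.Agent.Mix

theorem touch_le {M : ℕ} (P : Finset (Fin M × Fin M)) : (touch P).card ≤ 2 * P.card := by
  unfold touch
  refine (Finset.card_union_le _ _).trans ?_
  have h1 := Finset.card_image_le (s := P) (f := Prod.fst)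
  have h2 := Finset.card_image_le (s := P) (f := Prod.snd)
  omega

theorem mix_half2 (h1 : EEV_stmt) : MixHalf_stmt := by
  classical
  intro k₁
  obtain ⟨δ, hδ, v0, hLB⟩ := h1 (1 / 2) (by norm_num)
  obtain ⟨t, ht⟩ := exists_nat_gt (1 / δ)
  obtain ⟨v1, hv1⟩ : ∃ v1, v1 = max v0 2 := ⟨_, rfl⟩
  obtain ⟨B, hB⟩ : ∃ B, B = 8 * v1 + 8 + 8 * (k₁ + 1) ^ t := ⟨_, rfl⟩
  refine ⟨B ^ 2 + 2 * (k₁ * t), ?_⟩
  intro M s C o hC hs
  obtain ⟨L, hL⟩ : ∃ L, L = lg M := ⟨_, rfl⟩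
  have hL1 : 1 ≤ L := by rw [hL]; exact half_lg M
  rw [← hL] at hs ⊢
  obtain ⟨P, hP⟩ : ∃ P : Finset (Fin M × Fin M), P = Finset.univ.filter (· ∈ quiet C) := ⟨_, rfl⟩
  have hPq : ∀ e, e ∈ P ↔ e ∈ quiet C := by
    intro e
    rw [hP, Finset.mem_filter]
    exact ⟨fun h => h.2, fun h => ⟨Finset.mem_univ _, h⟩⟩
  have hcard : (quiet C).ncard = P.card := by
    rw [← Set.ncard_coe_finset]
    congr 1
    ext e
    exact (hPq e).symm
  rw [hcard]
  have hPM : P.card ≤ M ^ 2 := by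
    have := Finset.card_le_univ P
    rwa [Fintype.card_prod, Fintype.card_fin, ← sq] at this
  obtain ⟨Q, hQP, hQ⟩ := Finset.exists_subset_card_eq (s := P) (n := min P.card (M / 8))
    (min_le_left _ _)
  obtain ⟨v, hv⟩ : ∃ v, v = min P.card (M / 8) := ⟨_, rfl⟩
  rw [← hv] at hQ
  have hvb : v ≤ v1 + ((k₁ + 1) * L ^ k₁) ^ t := by
    rcases lt_or_ge v v1 with hlt | hge
    · omega
    · have hv0 : v0 ≤ Q.card := by omega
      have hv2 : 2 ≤ v := by omega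
      have hvM : v ≤ M / 8 := by rw [hv]; exact min_le_right _ _
      have hT := touch_le Q
      have hmain := hLB M (M / 2) Q (fun e he => ((hPq e).1 (hQP he)).1) hv0 (by omega)
        (by omega) s 1 C o hC (quiet_local C Q fun e he => (hPq e).1 (hQP he)) (by
          have hv1' : (1 : ℝ) ≤ (Q.card : ℝ) := by
            rw [hQ]
            exact_mod_cast le_trans (by norm_num) hv2
          have := Real.one_le_rpow hv1' (show (0 : ℝ) ≤ 1 - 1 / 2 by norm_num)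
          simpa using this)
      rw [hQ] at hmain
      have hs2 : C.size ≤ 2 ^ ((k₁ + 1) * L ^ k₁) := by
        refine hs.trans (Nat.pow_le_pow_right (by norm_num) ?_)
        exact Nat.mul_le_mul_right _ (by omega)
      have h8 : (2 : ℝ) ^ ((v : ℝ) ^ δ) ≤ (2 : ℝ) ^ ((((k₁ + 1) * L ^ k₁ : ℕ)) : ℝ) := by
        rw [Real.rpow_natCast]
        refine le_trans hmain ?_
        exact_mod_cast hs2
      have h9 : (v : ℝ) ^ δ ≤ (((k₁ + 1) * L ^ k₁ : ℕ) : ℝ) :=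
        (Real.rpow_le_rpow_left_iff (by norm_num)).1 h8
      have hvpos : (0 : ℝ) ≤ (v : ℝ) := Nat.cast_nonneg _
      have h10 : (v : ℝ) ≤ ((((k₁ + 1) * L ^ k₁ : ℕ)) : ℝ) ^ (1 / δ) := by
        have := Real.rpow_le_rpow (Real.rpow_nonneg hvpos δ) h9
          (show (0 : ℝ) ≤ 1 / δ by positivity)
        rw [← Real.rpow_mul hvpos] at this
        rwa [mul_one_div_cancel hδ.ne', Real.rpow_one] at this
      have hone : (1 : ℝ) ≤ (((k₁ + 1) * L ^ k₁ : ℕ) : ℝ) := by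
        have h4 : 1 ≤ L ^ k₁ := Nat.one_le_pow _ _ hL1
        have : 1 ≤ (k₁ + 1) * L ^ k₁ := by nlinarith
        exact_mod_cast this
      have h11 : (v : ℝ) ≤ ((((k₁ + 1) * L ^ k₁ : ℕ)) : ℝ) ^ (t : ℝ) :=
        le_trans h10 (Real.rpow_le_rpow_of_exponent_le hone ht.le)
      rw [Real.rpow_natCast] at h11
      have h12 : v ≤ ((k₁ + 1) * L ^ k₁) ^ t := by exact_mod_cast h11
      omega
  obtain ⟨b, hb⟩ : ∃ b, b = v1 + ((k₁ + 1) * L ^ k₁) ^ t := ⟨_, rfl⟩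
  rw [← hb] at hvb
  have hfin : P.card ≤ (8 * b + 8) ^ 2 := by
    rcases le_total P.card (M / 8) with h | h
    · rw [min_eq_left h] at hv
      have : 8 * b + 8 ≤ (8 * b + 8) ^ 2 := Nat.le_self_pow (by norm_num) _
      omega
    · rw [min_eq_right h] at hv
      have h2 : M ≤ 8 * b + 8 := by omega
      exact hPM.trans (Nat.pow_le_pow_left h2 2)
  have e1 : 8 * b + 8 ≤ B * L ^ (k₁ * t) := by
    have h4 : 1 ≤ L ^ (k₁ * t) := Nat.one_le_pow _ _ hL1
    have h5 : ((k₁ + 1) * L ^ k₁) ^ t = (k₁ + 1) ^ t * L ^ (k₁ * t) := by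
      rw [mul_pow, ← pow_mul]
    rw [hb, h5, hB]
    nlinarith
  calc P.card ≤ (8 * b + 8) ^ 2 := hfin
    _ ≤ (B * L ^ (k₁ * t)) ^ 2 := Nat.pow_le_pow_left e1 2
    _ = B ^ 2 * L ^ (2 * (k₁ * t)) := by
        rw [mul_pow, ← pow_mul]
        congr 2
        ring
    _ ≤ (B ^ 2 + 2 * (k₁ * t)) * L ^ (B ^ 2 + 2 * (k₁ * t)) :=
        Nat.mul_le_mul (Nat.le_add_right _ _)
          (Nat.pow_le_pow_right hL1 (Nat.le_add_left _ _))

end Pool.Agent.LN
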