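import Pool.Agent.helper69.LN.ECU
import Pool.Agent.helper69.LN.EMT
import Pool.Agent.helper69.LN.EPC
import Pool.Agent.helper69.LN.EWK
import Pool.Agent.helper69.LN.MixHalf2
import Pool.Agent.helper48.LN.EGA
import Pool.Agent.helper32.LN.EGB
import Pool.Agent.helper44.LN.EEM
import Pool.Agent.helper35.LN.EPJ
import Pool.Agent.helper74.LN.EEV

/-!
# Project LN (MP_069684_lc), part E: the local bound for every set of edges
-/

set_option autoImplicit false

namespace Pool.Agent.LN

theorem epc : EPC_stmt := EPC ECU EST EMT

theorem epj : EPJ_stmt := EPJ EGA EGB EEM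

theorem eev : EEV_stmt := EEV epc epj EWK

theorem ehalf : MixHalf_stmt := mix_half2 eev

end Pool.Agent.LN
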