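import Pool.Agent.helper69.LN.ESpec

/-!
# Project LN (MP_069684_lc), row ECU: a cut with half of the edges
-/

set_option autoImplicit false

namespace Pool.Agent.LN

open Finset Pool.Agent.helper38.Neg Pool.Agent.helper55.NT Pool.Agent.Mix

theorem ECU_half {M : ℕ} (e : Fin M × Fin M) (he : e.1 ≠ e.2) :
    2 * ((Finset.univ : Finset (Finset (Fin M))).filter
      fun A => ¬ (e.1 ∈ A ↔ e.2 ∈ A)).card = 2 ^ M := by
  classical
  have h1 := Finset.card_filter_add_card_filter_not (s := (Finset.univ : Finset (Finset (Fin M))))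
    (fun A => (e.1 ∈ A ↔ e.2 ∈ A))
  have h2 : ((Finset.univ : Finset (Finset (Fin M))).filter
      fun A => (e.1 ∈ A ↔ e.2 ∈ A)).card = ((Finset.univ : Finset (Finset (Fin M))).filter
      fun A => ¬ (e.1 ∈ A ↔ e.2 ∈ A)).card := by
    refine Finset.card_nbij' (fun A => symmDiff A {e.1}) (fun A => symmDiff A {e.1}) ?_ ?_ ?_ ?_
    · intro A hA
      simp only [Finset.coe_filter, Finset.mem_univ, true_and, Set.mem_ofPred_eq] at hA ⊢
      simp only [Finset.mem_symmDiff, Finset.mem_singleton]
      have := he.symm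
      tauto
    · intro A hA
      simp only [Finset.coe_filter, Finset.mem_univ, true_and, Set.mem_ofPred_eq] at hA ⊢
      simp only [Finset.mem_symmDiff, Finset.mem_singleton]
      have := he.symm
      tauto
    · intro A _
      simp
    · intro A _
      simp
  rw [h2, Finset.card_univ, Fintype.card_finset, Fintype.card_fin] at h1
  omega

theorem ECU : ECU_stmt := by
  classical
  intro M U hU
  have hex : ∃ A : Finset (Fin M), U.card ≤ 2 * (U.filter fun e => ¬ (e.1 ∈ A ↔ e.2 ∈ A)).card := by
    by_contra hcon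
    rw [not_exists] at hcon
    have hlt : ∑ A : Finset (Fin M), 2 * (U.filter fun e => ¬ (e.1 ∈ A ↔ e.2 ∈ A)).card <
        ∑ _A : Finset (Fin M), U.card :=
      Finset.sum_lt_sum_of_nonempty Finset.univ_nonempty fun A _ => not_le.1 (hcon A)
    rw [← Finset.mul_sum, Finset.sum_const, Finset.card_univ, Fintype.card_finset,
      Fintype.card_fin, smul_eq_mul] at hlt
    have hswap : ∑ A : Finset (Fin M), (U.filter fun e => ¬ (e.1 ∈ A ↔ e.2 ∈ A)).card =
        ∑ e ∈ U, ((Finset.univ : Finset (Finset (Fin M))).filter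
          fun A => ¬ (e.1 ∈ A ↔ e.2 ∈ A)).card := by
      simp only [Finset.card_filter]
      exact Finset.sum_comm
    rw [hswap, Finset.mul_sum, Finset.sum_congr rfl fun e he => ECU_half e (hU e he).ne,
      Finset.sum_const, smul_eq_mul] at hlt
    exact absurd hlt (by rw [mul_comm]; exact lt_irrefl _)
  obtain ⟨A, hA⟩ := hex
  refine ⟨A, (U.filter fun e => ¬ (e.1 ∈ A ↔ e.2 ∈ A)).image
    (fun e => if e.1 ∈ A then e else (e.2, e.1)), ?_, ?_⟩
  · intro e he
    obtain ⟨f, hf, rfl⟩ := Finset.mem_image.1 he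
    obtain ⟨hfU, hf2⟩ := Finset.mem_filter.1 hf
    by_cases h : f.1 ∈ A
    · rw [if_pos h]
      exact ⟨h, fun h2 => hf2 ⟨fun _ => h2, fun _ => h⟩, Or.inl hfU⟩
    · rw [if_neg h]
      refine ⟨?_, h, Or.inr hfU⟩
      by_contra h2
      exact hf2 ⟨fun h' => absurd h' h, fun h' => absurd h' h2⟩
  · rw [Finset.card_image_of_injOn]
    · exact hA
    · intro e he f hf hef
      have he' := hU e (Finset.mem_filter.1 he).1
      have hf' := hU f (Finset.mem_filter.1 hf).1
      simp only at hef
      by_cases h1 : e.1 ∈ A <;> by_cases h2 : f.1 ∈ A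
      · rwa [if_pos h1, if_pos h2] at hef
      · rw [if_pos h1, if_neg h2] at hef
        rw [hef] at he'
        exact absurd he' (not_lt.2 hf'.le)
      · rw [if_neg h1, if_pos h2] at hef
        rw [← hef] at hf'
        exact absurd hf' (not_lt.2 he'.le)
      · rw [if_neg h1, if_neg h2] at hef
        have e1 := congrArg Prod.fst hef
        have e2 := congrArg Prod.snd hef
        exact Prod.ext e2 e1

end Pool.Agent.LN
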