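import Pool.Agent.helper69.LN.Defs

/-!
# Project LN (MP_069684_lc), part E: every set of edges. Definitions
-/

set_option autoImplicit false

namespace Pool.Agent.LN

open Finset Pool.Agent.helper38.Neg Pool.Agent.helper55.NT

/-- `K` star forests in `E`, each with its edges indexed by the pairs of `r` points: the edge
`(q, e)` joins `leaf q e` and `cen q e`. Within a forest the leaves are different and no leaf is a
centre; both ends of an edge of another forest are never both vertices of the forest `q`. -/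
structure Pcs (M r K : ℕ) (E : Finset (Fin M × Fin M)) : Type where
  leaf : Fin K → Pr r → Fin M
  cen : Fin K → Pr r → Fin M
  inj : ∀ q, Function.Injective (leaf q)
  dis : ∀ q e e', leaf q e ≠ cen q e'
  mem : ∀ q e, (leaf q e, cen q e) ∈ E ∨ (cen q e, leaf q e) ∈ E
  ind : ∀ q q' e, (∃ f, leaf q f = leaf q' e ∨ cen q f = leaf q' e) →
    (∃ f, leaf q f = cen q' e ∨ cen q f = cen q' e) → q' = q

/-- The vertices of the forest `q`. -/
def Pcs.vtx {M r K : ℕ} {E : Finset (Fin M × Fin M)} (P : Pcs M r K E) (q : Fin K) :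
    Finset (Fin M) := Finset.univ.image (P.leaf q) ∪ Finset.univ.image (P.cen q)

/-- The vertices of all forests. -/
abbrev Tv {M r K : ℕ} {E : Finset (Fin M × Fin M)} (P : Pcs M r K E) : Type :=
  {a : Fin M // ∃ q e, P.leaf q e = a ∨ P.cen q e = a}

/-- The labels of the gadget graph: `(a, true)` the vertex `a`, `(a, false)` its twin; `(i, c)`: slot
`i` holds the point `c`; `(ij, cd, q)`: the slots `i < j` hold `c < d`, in the forest `q`; universal
vertices. -/
abbrev Wt {M r K : ℕ} {E : Finset (Fin M × Fin M)} (P : Pcs M r K E) (l w : ℕ) : Type :=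
  (Tv P × Bool) ⊕ (Fin l × Fin r) ⊕ (Pr l × Pr r × Fin K) ⊕ Fin w

/-- The classes of labels. -/
abbrev Wk {M r K : ℕ} {E : Finset (Fin M × Fin M)} (P : Pcs M r K E) (l w : ℕ) : Type :=
  Tv P ⊕ Fin l ⊕ Pr l ⊕ Fin w

/-- The class of a label. -/
def wcls {M r K : ℕ} {E : Finset (Fin M × Fin M)} {P : Pcs M r K E} {l w : ℕ} :
    Wt P l w → Wk P l w
  | Sum.inl (a, _) => Sum.inl a
  | Sum.inr (Sum.inl (i, _)) => Sum.inr (Sum.inl i)
  | Sum.inr (Sum.inr (Sum.inl (ij, _, _))) => Sum.inr (Sum.inr (Sum.inl ij))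
  | Sum.inr (Sum.inr (Sum.inr i)) => Sum.inr (Sum.inr (Sum.inr i))

/-- Conflicts: a twin and a pair label that needs the vertex; a slot and a pair of slots with another
content; pair labels of different forests. -/
def wcf {M r K : ℕ} {E : Finset (Fin M × Fin M)} {P : Pcs M r K E} {l w : ℕ} :
    Wt P l w → Wt P l w → Prop
  | Sum.inl (a, false), Sum.inr (Sum.inr (Sum.inl (_, cd, q))) =>
      P.leaf q cd = a.1 ∨ P.cen q cd = a.1
  | Sum.inr (Sum.inl (i, c)), Sum.inr (Sum.inr (Sum.inl (ij, cd, _))) =>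
      (i = ij.1.1 ∧ c ≠ cd.1.1) ∨ (i = ij.1.2 ∧ c ≠ cd.1.2)
  | Sum.inr (Sum.inr (Sum.inl (_, _, q))), Sum.inr (Sum.inr (Sum.inl (_, _, q'))) => q ≠ q'
  | _, _ => False

/-- The variable edges: the two ends of `(q, e)`. -/
def wvr {M r K : ℕ} {E : Finset (Fin M × Fin M)} {P : Pcs M r K E} {l w : ℕ} :
    Wt P l w → Wt P l w → Fin K → Pr r → Prop
  | Sum.inl (a, true), Sum.inl (b, true), q, e => P.leaf q e = a.1 ∧ P.cen q e = b.1
  | _, _, _, _ => False

/-- Adjacency in the gadget graph of `x`. -/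
def wadj {M r K : ℕ} {E : Finset (Fin M × Fin M)} {P : Pcs M r K E} {l w : ℕ}
    (x : Fin K → Pr r → Bool) (α β : Wt P l w) : Prop :=
  wcls α ≠ wcls β ∧ ¬ wcf α β ∧ ¬ wcf β α ∧ (∀ q e, wvr α β q e → x q e = true) ∧
    ∀ q e, wvr β α q e → x q e = true

/-- The input bit of the edge `(q, e)`. -/
def wbit {r K : ℕ} (x : Fin (K * (r * r)) → Bool) (q : Fin K) (e : Pr r) : Bool :=
  x (finProdFinEquiv (q, finProdFinEquiv e.1))

/-- OR of `K` clique functions on disjoint blocks of the input. -/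
def OrClique (K r l : ℕ) (x : Fin (K * (r * r)) → Bool) : Prop :=
  ∃ q : Fin K, Clique r l fun i => x (finProdFinEquiv (q, i))

end Pool.Agent.LN
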