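import Pool.Agent.helper69.LN.ESpec

/-!
# Project LN (MP_069684_lc), row ESN: one more forest
-/

set_option autoImplicit false

namespace Pool.Agent.LN

open Finset Pool.Agent.helper38.Neg Pool.Agent.helper55.NT Pool.Agent.Mix

/-- The extended family of functions. -/
def ESN_f {M r K : ℕ} (g : Fin K → Pr r → Fin M) (h : Pr r → Fin M) : Fin (K + 1) → Pr r → Fin M :=
  fun q => Fin.lastCases (motive := fun _ => Pr r → Fin M) h g q

theorem ESN_last {M r K : ℕ} (g : Fin K → Pr r → Fin M) (h : Pr r → Fin M) :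
    ESN_f g h (Fin.last K) = h := by
  unfold ESN_f
  exact Fin.lastCases_last

theorem ESN_cast {M r K : ℕ} (g : Fin K → Pr r → Fin M) (h : Pr r → Fin M) (q : Fin K) :
    ESN_f g h q.castSucc = g q := by
  unfold ESN_f
  exact Fin.lastCases_castSucc q

theorem ESN : ESN_stmt := by
  classical
  intro M r K E P leaf cen h1 h2 h3 h4 h5
  have hv : ∀ (q : Fin K) (a : Fin M), (∃ f, P.leaf q f = a ∨ P.cen q f = a) → a ∈ P.vtx q := by
    rintro q a ⟨f, hf | hf⟩
    · exact Finset.mem_union_left _ (Finset.mem_image.2 ⟨f, Finset.mem_univ _, hf⟩)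
    · exact Finset.mem_union_right _ (Finset.mem_image.2 ⟨f, Finset.mem_univ _, hf⟩)
  have hn : ∀ a : Fin M, (∃ f, leaf f = a ∨ cen f = a) →
      a ∈ Finset.univ.image leaf ∪ Finset.univ.image cen := by
    rintro a ⟨f, hf | hf⟩
    · exact Finset.mem_union_left _ (Finset.mem_image.2 ⟨f, Finset.mem_univ _, hf⟩)
    · exact Finset.mem_union_right _ (Finset.mem_image.2 ⟨f, Finset.mem_univ _, hf⟩)
  refine ⟨⟨ESN_f P.leaf leaf, ESN_f P.cen cen, ?_, ?_, ?_, ?_⟩⟩
  · intro q
    refine Fin.lastCases ?_ (fun q => ?_) q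
    · rw [ESN_last]
      exact h1
    · rw [ESN_cast]
      exact P.inj q
  · intro q
    refine Fin.lastCases ?_ (fun q => ?_) q
    · rw [ESN_last, ESN_last]
      exact h2
    · rw [ESN_cast, ESN_cast]
      exact P.dis q
  · intro q
    refine Fin.lastCases ?_ (fun q => ?_) q
    · rw [ESN_last, ESN_last]
      exact h3
    · rw [ESN_cast, ESN_cast]
      exact P.mem q
  · intro q q'
    refine Fin.lastCases ?_ (fun q => ?_) q
    · refine Fin.lastCases ?_ (fun q' => ?_) q'
      · intro _ _ _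
        rfl
      · rw [ESN_last, ESN_last, ESN_cast, ESN_cast]
        intro e ha hb
        exact absurd ⟨hn _ ha, hn _ hb⟩ (h5 q' e)
    · refine Fin.lastCases ?_ (fun q' => ?_) q'
      · rw [ESN_last, ESN_last, ESN_cast, ESN_cast]
        intro e ha hb
        exact absurd ⟨hv _ _ ha, hv _ _ hb⟩ (h4 q e)
      · simp only [ESN_cast]
        intro e ha hb
        rw [P.ind q q' e ha hb]

end Pool.Agent.LN
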