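import Pool.Agent.helper69.LN.ESN

/-!
# Project LN, row EST: one more forest, a star
-/

set_option autoImplicit false

namespace Pool.Agent.LN

open Finset Pool.Agent.helper38.Neg Pool.Agent.helper55.NT Pool.Agent.Mix

theorem EST_pr (r : ℕ) : Fintype.card (Pr r) ≤ r ^ 2 := by
  have h := Fintype.card_le_of_injective (fun e : Pr r => e.1) Subtype.val_injective
  rwa [Fintype.card_prod, Fintype.card_fin, ← sq] at h

theorem EST_aux {M r K : ℕ} {E : Finset (Fin M × Fin M)} (P : Pcs M r K E)
    (c : Fin M) (leaf : Pr r → Fin M) (hinj : Function.Injective leaf) (B : Finset (Fin M))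
    (hB : ∀ e ∈ E, (e.1 ∈ B ∧ e.2 ∉ B) ∨ (e.1 ∉ B ∧ e.2 ∈ B)) (hleaf : ∀ e, leaf e ∈ B)
    (hc : c ∉ B) (hmem : ∀ e, (leaf e, c) ∈ E ∨ (c, leaf e) ∈ E)
    (hfree : ∀ q e, ¬ (leaf e ∈ P.vtx q ∧ c ∈ P.vtx q)) : Nonempty (Pcs M r (K + 1) E) := by
  classical
  refine ESN M r K E P leaf (fun _ => c) hinj ?_ hmem hfree ?_
  · intro e _ h
    exact hc (h ▸ hleaf e)
  · rintro q e ⟨h1, h2⟩
    have hlv : P.leaf q e ∈ P.vtx q :=
      Finset.mem_union_left _ (Finset.mem_image.2 ⟨e, Finset.mem_univ _, rfl⟩)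
    have hcv : P.cen q e ∈ P.vtx q :=
      Finset.mem_union_right _ (Finset.mem_image.2 ⟨e, Finset.mem_univ _, rfl⟩)
    have key : ∀ a b : Fin M, a ∈ P.vtx q → b ∈ P.vtx q → a ∈ B → b ∉ B →
        a ∈ Finset.univ.image leaf ∪ Finset.univ.image (fun _ : Pr r => c) →
        b ∈ Finset.univ.image leaf ∪ Finset.univ.image (fun _ : Pr r => c) → False := by
      intro a b ha hb haB hbB ha' hb'
      rcases Finset.mem_union.1 ha' with h | h
      · obtain ⟨f, _, rfl⟩ := Finset.mem_image.1 h
        rcases Finset.mem_union.1 hb' with h | h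
        · obtain ⟨f', _, rfl⟩ := Finset.mem_image.1 h
          exact hbB (hleaf f')
        · obtain ⟨f', _, rfl⟩ := Finset.mem_image.1 h
          exact hfree q f ⟨ha, hb⟩
      · obtain ⟨f, _, rfl⟩ := Finset.mem_image.1 h
        exact hc haB
    have hside : (P.leaf q e ∈ B ∧ P.cen q e ∉ B) ∨ (P.leaf q e ∉ B ∧ P.cen q e ∈ B) := by
      rcases P.mem q e with h | h
      · exact hB _ h
      · rcases hB _ h with ⟨h3, h4⟩ | ⟨h3, h4⟩
        · exact Or.inr ⟨h4, h3⟩
        · exact Or.inl ⟨h4, h3⟩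
    rcases hside with ⟨h3, h4⟩ | ⟨h3, h4⟩
    · exact key _ _ hlv hcv h3 h4 h1 h2
    · exact key _ _ hcv hlv h4 h3 h2 h1

theorem EST : EST_stmt := by
  classical
  intro M r K A E P hE h
  rcases h with ⟨b, hb⟩ | ⟨a, ha⟩
  · obtain ⟨g⟩ : Nonempty (Pr r ↪ {e // e ∈ (freeE P).filter fun e => e.2 = b}) := by
      refine Function.Embedding.nonempty_of_card_le ?_
      rw [Fintype.card_coe]
      exact (EST_pr r).trans hb
    have hg : ∀ f, (g f).1 ∈ E ∧ (g f).1.2 = b ∧
        ∀ q, ¬ ((g f).1.1 ∈ P.vtx q ∧ (g f).1.2 ∈ P.vtx q) := by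
      intro f
      obtain ⟨h1, h2⟩ := Finset.mem_filter.1 (g f).2
      unfold freeE at h1
      obtain ⟨h3, h4⟩ := Finset.mem_filter.1 h1
      exact ⟨h3, h2, h4⟩
    rcases isEmpty_or_nonempty (Pr r) with hemp | ⟨⟨f₀⟩⟩
    · exact ESN M r K E P (fun f => (hemp.false f).elim) (fun f => (hemp.false f).elim)
        (fun f => (hemp.false f).elim) (fun f => (hemp.false f).elim)
        (fun f => (hemp.false f).elim) (fun _ f => (hemp.false f).elim)
        (fun _ f => (hemp.false f).elim)
    · refine EST_aux P b (fun f => (g f).1.1) ?_ A (fun e he => Or.inl (hE e he))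
        (fun f => (hE _ (hg f).1).1) ?_ ?_ ?_
      · intro f f' hff
        apply g.injective
        apply Subtype.ext
        exact Prod.ext hff ((hg f).2.1.trans (hg f').2.1.symm)
      · have := (hE _ (hg f₀).1).2
        rwa [(hg f₀).2.1] at this
      · intro f
        left
        have := (hg f).1
        have h2 : ((g f).1.1, b) = (g f).1 := Prod.ext rfl (hg f).2.1.symm
        rw [h2]
        exact this
      · intro q f hh
        refine (hg f).2.2 q ⟨hh.1, ?_⟩
        rw [(hg f).2.1]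
        exact hh.2
  · obtain ⟨g⟩ : Nonempty (Pr r ↪ {e // e ∈ (freeE P).filter fun e => e.1 = a}) := by
      refine Function.Embedding.nonempty_of_card_le ?_
      rw [Fintype.card_coe]
      exact (EST_pr r).trans ha
    have hg : ∀ f, (g f).1 ∈ E ∧ (g f).1.1 = a ∧
        ∀ q, ¬ ((g f).1.1 ∈ P.vtx q ∧ (g f).1.2 ∈ P.vtx q) := by
      intro f
      obtain ⟨h1, h2⟩ := Finset.mem_filter.1 (g f).2
      unfold freeE at h1
      obtain ⟨h3, h4⟩ := Finset.mem_filter.1 h1
      exact ⟨h3, h2, h4⟩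
    rcases isEmpty_or_nonempty (Pr r) with hemp | ⟨⟨f₀⟩⟩
    · exact ESN M r K E P (fun f => (hemp.false f).elim) (fun f => (hemp.false f).elim)
        (fun f => (hemp.false f).elim) (fun f => (hemp.false f).elim)
        (fun f => (hemp.false f).elim) (fun _ f => (hemp.false f).elim)
        (fun _ f => (hemp.false f).elim)
    · refine EST_aux P a (fun f => (g f).1.2) ?_ Aᶜ ?_
        (fun f => Finset.mem_compl.2 (hE _ (hg f).1).2) ?_ ?_ ?_
      · intro f f' hff
        apply g.injective
        apply Subtype.ext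
        exact Prod.ext ((hg f).2.1.trans (hg f').2.1.symm) hff
      · intro e he
        right
        rw [Finset.mem_compl, Finset.mem_compl, not_not]
        exact hE e he
      · rw [Finset.mem_compl, not_not]
        have := (hE _ (hg f₀).1).1
        rwa [(hg f₀).2.1] at this
      · intro f
        right
        have := (hg f).1
        have h2 : (a, (g f).1.2) = (g f).1 := Prod.ext (hg f).2.1.symm rfl
        rw [h2]
        exact this
      · intro q f hh
        refine (hg f).2.2 q ⟨?_, hh.1⟩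
        rw [(hg f).2.1]
        exact hh.2

end Pool.Agent.LN
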