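import Pool.Agent.helper69.LN.EDefs
import Pool.Agent.helper69.LN.MixLocal
import Pool.Agent.helper83.Mix.Final

/-!
# Project LN (MP_069684_lc), part E: the local bound for EVERY set of edges

THEOREM. For every `ε > 0` there are `δ > 0`, `e0`: let `U` be any set of at least `e0` edges, `v` the number of
vertices it touches, `2 v ≤ k`, `k + 3 |U| ≤ M`. A mixed circuit for the `k`-clique function on `M`
vertices which takes at most `K ≤ |U|^(1-ε)` patterns along every increasing sequence of inputs that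
agree outside `U` has at least `2^(|U|^δ)` monotone gates. (So `(1-ε) log |U|` negations are needed at `U`;
`log (|U| + 1)` suffice.)

RULES as in Spec.lean: row `X`: file `Pool/Agent/<seat>/LN/X.lean`, `import Pool.Agent.helper69.LN.ESpec`,
`theorem X (h1 : ...) : X_stmt`, auxiliary lemmas prefixed `X_`, new files only.
-/

set_option autoImplicit false

namespace Pool.Agent.LN

open Finset Pool.Agent.helper38.Neg Pool.Agent.helper55.NT Pool.Agent.Mix

/-! ## The forests -/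

/-- **ECU** (medium: a cut with half of the edges). For `A ⊆ univ` let `cut A` = number of `e ∈ U` with exactly one of `e.1`, `e.2` in
`A`. For a fixed `e` (`e.1 ≠ e.2`) the map `A ↦ symmDiff A {e.1}` is a bijection between the sets that cut `e` and those
that do not, so `∑_A cut A = ∑_A (|U| - cut A)` and some `A` has `2 cut A ≥ |U|`. `E` = the image of the cut edges under
`e ↦ if e.1 ∈ A then e else (e.2, e.1)`, which is injective on `U` (`e.1 < e.2`). -/
def ECU_stmt : Prop := ∀ (M : ℕ) (U : Finset (Fin M × Fin M)), (∀ e ∈ U, e.1 < e.2) →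
  ∃ (A : Finset (Fin M)) (E : Finset (Fin M × Fin M)),
    (∀ e ∈ E, e.1 ∈ A ∧ e.2 ∉ A ∧ (e ∈ U ∨ (e.2, e.1) ∈ U)) ∧ U.card ≤ 2 * E.card

/-- **ESN** (short, medium: one more forest). `Fin.snoc` for `leaf` and `cen`; `ind` by cases (old, old), (new, old), (old, new),
(new, new) (the last is `rfl`). `vtx`: `Finset.mem_union`, `Finset.mem_image`. -/
def ESN_stmt : Prop := ∀ (M r K : ℕ) (E : Finset (Fin M × Fin M)) (P : Pcs M r K E)
  (leaf cen : Pr r → Fin M), Function.Injective leaf → (∀ e e', leaf e ≠ cen e') →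
  (∀ e, (leaf e, cen e) ∈ E ∨ (cen e, leaf e) ∈ E) →
  (∀ q e, ¬ (leaf e ∈ P.vtx q ∧ cen e ∈ P.vtx q)) →
  (∀ q e, ¬ (P.leaf q e ∈ univ.image leaf ∪ univ.image cen ∧
    P.cen q e ∈ univ.image leaf ∪ univ.image cen)) → Nonempty (Pcs M r (K + 1) E)

/-- The edges of `E` not inside an old forest. -/
def freeE {M r K : ℕ} {E : Finset (Fin M × Fin M)} (P : Pcs M r K E) : Finset (Fin M × Fin M) :=
  E.filter fun e => ∀ q, ¬ (e.1 ∈ P.vtx q ∧ e.2 ∈ P.vtx q)

/-- **EST** (medium: a star). From ESN. `E ⊆ A × Aᶜ` (bipartite). First case: `b` has at least `r ^ 2 ≥ |Pr r|` free edges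
`(a, b)`: `leaf` = an injection of `Pr r` into these `a ∈ A` (`Function.Embedding.nonempty_of_card_le`), `cen = b`. Old edges
inside the new vertex set: one end is in `A`, the other is not, so the end not in `A` is `b`, the other is one of the chosen `a`,
and `(a, b)` has both ends in `P.vtx q`: not free, contradiction. Second case (a vertex `a` with `r ^ 2` free edges `(a, b)`): the same.
(`Fintype.card (Pr r) ≤ r ^ 2`: injection into `Fin r × Fin r`.) -/
def EST_stmt : Prop := ∀ (M r K : ℕ) (A : Finset (Fin M)) (E : Finset (Fin M × Fin M))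
  (P : Pcs M r K E), (∀ e ∈ E, e.1 ∈ A ∧ e.2 ∉ A) →
  ((∃ b, r ^ 2 ≤ ((freeE P).filter fun e => e.2 = b).card) ∨
    ∃ a, r ^ 2 ≤ ((freeE P).filter fun e => e.1 = a).card) → Nonempty (Pcs M r (K + 1) E)

/-- **EMT** (medium, long: a matching). From ESN. Let `H = freeE P`, all degrees in `H` less than `r ^ 2`. `|E \ H| ≤ K r ^ 4`: an edge of
`E \ H` is (a, b) with `a ∈ A ∩ vtx q`, `b ∈ Aᶜ ∩ vtx q`, at most `r ^ 2 * r ^ 2` for each `q` (a vertex of `vtx q` in `A`: for every `e` exactly one of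
`leaf q e`, `cen q e` is in `A`, by `mem`, so `|vtx q ∩ A| ≤ |Pr r| ≤ r ^ 2`, the same for `Aᶜ`). The old vertices in `A` are at most `K r ^ 2`, and those not in `A`
too; they have less than `r ^ 2` edges in `H` each, so at least `|E| - 3 K r ^ 4 ≥ 2 r ^ 4` edges of `H` have no end in an old forest. Choose a
matching with `r ^ 2` of them: greedily (a matching with `m < r ^ 2` edges meets less than `2 m r ^ 2 < 2 r ^ 4` edges of
`H`); induction on `m ≤ r ^ 2`: there is a set of `m` edges with different first and different second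
coordinates. `leaf`, `cen` = the first and the second coordinates for an injection of `Pr r` into the matching. No old
edge has an end in the new vertices. -/
def EMT_stmt : Prop := ∀ (M r K : ℕ) (A : Finset (Fin M)) (E : Finset (Fin M × Fin M))
  (P : Pcs M r K E), (∀ e ∈ E, e.1 ∈ A ∧ e.2 ∉ A) →
  (∀ b, ((freeE P).filter fun e => e.2 = b).card < r ^ 2) →
  (∀ a, ((freeE P).filter fun e => e.1 = a).card < r ^ 2) →
  3 * K * r ^ 4 + 2 * r ^ 4 ≤ E.card → Nonempty (Pcs M r (K + 1) E)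

/-- **EPC** (short, medium). From ECU, EST, EMT. `E` of ECU: `3 K r ^ 4 ≤ |E|`. By induction `Nonempty (Pcs M r m E)` for `m ≤ K`
(`m = 0`: functions on `Fin 0`). A `Pcs` in `E` is a `Pcs` in `U` (`mem`). -/
def EPC_stmt : Prop := ∀ (M r K : ℕ) (U : Finset (Fin M × Fin M)), (∀ e ∈ U, e.1 < e.2) →
  6 * K * r ^ 4 ≤ U.card → Nonempty (Pcs M r K U)

/-! ## The gadget -/

/-- **EGA** (medium: adapt GA of helper48). `S` has one label of every class. Slots `(i, c i) ∈ S`. For `i < j` the pair label is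
`(ij, cd, q)` with `cd = (c i, c j)` and the same `q` for all pairs (conflict); `q` exists since `l ≥ 2`. The labels of the classes
of `leaf q cd` and `cen q cd` are not the twins, so `wvr` gives `x q cd = true`. -/
def EGA_stmt : Prop := ∀ (M r K l w : ℕ) (E : Finset (Fin M × Fin M)) (P : Pcs M r K E)
  (x : Fin K → Pr r → Bool) (S : Finset (Wt P l w)), 2 ≤ l → S.card = Nat.card (Wk P l w) →
  (∀ α ∈ S, ∀ β ∈ S, α ≠ β → wadj x α β) →
  ∃ (q : Fin K) (R : Finset (Fin r)), R.card = l ∧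
    ∀ a ∈ R, ∀ b ∈ R, ∀ h : a < b, x q ⟨(a, b), h⟩ = true

/-- **EGB** (medium: adapt GB of helper32). `c = R.orderEmbOfFin`. Labels: `(a, b)` with `b = true` iff `a = leaf q e` or `a = cen q e` for some
`e = (c i, c j)`, `i < j`; `(i, c i)`; `(ij, (c i, c j), q)`; the universal vertex. For `wvr (a, true) (b, true) q' e'`: both ends of `(q', e')`
are vertices of the forest `q`, so `q' = q` (`ind`); `leaf q e' = a` is `leaf q e` or `cen q e` for a needed `e`, the second is
impossible (`dis`), so `e = e'` (`inj`) and `x q e' = true`. -/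
def EGB_stmt : Prop := ∀ (M r K l w : ℕ) (E : Finset (Fin M × Fin M)) (P : Pcs M r K E)
  (x : Fin K → Pr r → Bool) (q : Fin K) (R : Finset (Fin r)), R.card = l →
  (∀ a ∈ R, ∀ b ∈ R, ∀ h : a < b, x q ⟨(a, b), h⟩ = true) →
  ∃ S : Finset (Wt P l w), S.card = Nat.card (Wk P l w) ∧ ∀ α ∈ S, ∀ β ∈ S, α ≠ β → wadj x α β

/-- **EEM** (medium: adapt EMB of helper44). `|Tv P| ≤ |touch E|` (`mem`). Classes without `w`: `|Tv| + l + |Pr l| ≤ |touch E| + l ^ 2`. Labels:
`2 |Tv| + l r + |Pr l| |Pr r| K + w ≤ k + |touch E| + l r + l ^ 2 r ^ 2 K`. -/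
def EEM_stmt : Prop := ∀ (M r K l k : ℕ) (E : Finset (Fin M × Fin M)) (P : Pcs M r K E),
  (touch E).card + l ^ 2 ≤ k → k + (touch E).card + l * r + l ^ 2 * r ^ 2 * K ≤ M →
  ∃ (w : ℕ) (φ : Wt P l w → Fin M), Nat.card (Wk P l w) = k ∧ Function.Injective φ ∧
    ∀ a : Tv P, φ (Sum.inl (a, true)) = a.1

/-- **EPJ** (medium, long: adapt PRJ of helper35). From EGA, EGB, EEM. Uniqueness of the variable `(q, e)` of a pair of labels: `ind`, `inj`, `dis`. -/
def EPJ_stmt : Prop := ∀ (M r K l k : ℕ) (U : Finset (Fin M × Fin M)), (∀ e ∈ U, e.1 < e.2) →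
  Pcs M r K U → 2 ≤ l → (touch U).card + l ^ 2 ≤ k →
  k + (touch U).card + l * r + l ^ 2 * r ^ 2 * K ≤ M →
  ∃ σ : Fin (M * M) → Fin (K * (r * r)) ⊕ Bool,
    (∀ x : Fin (K * (r * r)) → Bool, Clique M k (sb σ x) ↔ OrClique K r l x) ∧
    ∀ (e : Fin M × Fin M) (i : Fin (K * (r * r))), σ (finProdFinEquiv e) = Sum.inl i → e ∈ U

/-! ## The bound -/

/-- **EWK** (medium: adapt `mix_fam` in helper83/Mix/Final.lean). `mix_walk` with `f = OrClique K r l`, `h = ClqFn r l`, `r = l * (8 * t ^ 2)`,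
`G c i = c q e` if `i` is the position of block `q` and of the edge `e = (a, b)`, `a < b`, and `false` for the other positions; `rclq_lower`. -/
def EWK_stmt : Prop := ∀ (K t l s : ℕ), 3 ≤ t → 4 * t ^ 2 + 1 ≤ l →
  ∀ (C : MixCircuit (K * (l * (8 * t ^ 2) * (l * (8 * t ^ 2)))) s)
    (o : Fin (K * (l * (8 * t ^ 2) * (l * (8 * t ^ 2))) + s)),
  C.Computes o (OrClique K (l * (8 * t ^ 2)) l) → C.PatternsLE K → 2 ^ (t - 1) ≤ C.size + 1

/-- **EEV** (medium, long: parameters). From EPC, EPJ, EWK and `mix_sub`, `mix_sub_pat` (helper69/LN/MixLocal.lean; see `mix_local` there). `ε ≤ 1` may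
be assumed, `m = |U|`. `t = ⌊m^(ε/64)⌋`, `l = 4 t² + 1`, `r = l * (8 t²) ≤ 40 t⁴`. `K = 0`: `LocalLE` is false. `6 K r⁴ ≤ 6 m^(1-ε) (40 t⁴)⁴ ≤ m`; `l r`, `l² r² K ≤ m/8`,
`|touch U| ≤ 2 m`, so `k + ... ≤ k + 3 m ≤ M`. `l² ≤ |touch U|` since `m ≤ |touch U|²` (`card_le_touch` in helper69/LN/MixHalf.lean). Then
`2^(t-1) ≤ C.size + 1` and `t - 1 ≥ m^δ + 1` for `δ = ε/128` and large `m`. -/
def EEV_stmt : Prop := ∀ ε : ℝ, 0 < ε → ∃ δ : ℝ, 0 < δ ∧ ∃ e0 : ℕ,
  ∀ (M k : ℕ) (U : Finset (Fin M × Fin M)), (∀ e ∈ U, e.1 < e.2) → e0 ≤ U.card →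
  2 * (touch U).card ≤ k → k + 3 * U.card ≤ M →
  ∀ (s K : ℕ) (C : MixCircuit (M * M) s) (o : Fin (M * M + s)), C.Computes o (Clique M k) →
    C.LocalLE (pos U) K → (K : ℝ) ≤ (U.card : ℝ) ^ (1 - ε) →
    (2 : ℝ) ^ ((U.card : ℝ) ^ δ) ≤ C.size

end Pool.Agent.LN
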