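import Pool.Agent.helper69.LN.Defs
import Pool.Agent.helper83.Comb.Final

/-!
# Project LN (MP_069684_lc): circuits with monotone real gates and arbitrary gates. Definitions
-/

set_option autoImplicit false

namespace Pool.Agent.LN

open Finset Pool.Agent.helper38.Neg Pool.Agent.helper55.NT Pool.Agent.helper83.Comb

/-- `GC n s`: circuits with `n` inputs and `s` gates. The wires are the `n` inputs and then the `s`
gates in their order; they carry real numbers. A gate `mono` applies to two earlier wires a function
`φ : ℝ → ℝ → ℝ` that is nondecreasing in both arguments. A gate `free` applies an arbitrary function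
`g` to arbitrary many earlier wires `w 0, ..., w (m - 1)`. -/
inductive GC (n : ℕ) : ℕ → Type
  | nil : GC n 0
  | mono {s : ℕ} (C : GC n s) (φ : ℝ → ℝ → ℝ)
      (hφ : ∀ a a' b b' : ℝ, a ≤ a' → b ≤ b' → φ a b ≤ φ a' b') (i j : Fin (n + s)) :
      GC n (s + 1)
  | free {s : ℕ} (C : GC n s) (m : ℕ) (w : Fin m → Fin (n + s)) (g : (Fin m → ℝ) → ℝ) :
      GC n (s + 1)

/-- The values of all wires on the input `x`; the inputs are read as the real numbers `0`, `1`. -/
def GC.val {n : ℕ} : {s : ℕ} → GC n s → (Fin n → Bool) → (Fin (n + s) → ℝ)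
  | _, GC.nil, x => fun i => if x i = true then 1 else 0
  | _, GC.mono C φ _ i j, x => Fin.snoc (α := fun _ => ℝ) (C.val x) (φ (C.val x i) (C.val x j))
  | _, GC.free C _ w g, x => Fin.snoc (α := fun _ => ℝ) (C.val x) (g fun i => C.val x (w i))

/-- The pattern of the input `x`: the list of the values of all wires read by the arbitrary gates. -/
def GC.pat {n : ℕ} : {s : ℕ} → GC n s → (Fin n → Bool) → List ℝ
  | _, GC.nil, _ => []
  | _, GC.mono C _ _ _ _, x => C.pat x
  | _, GC.free C _ w _, x => C.pat x ++ List.ofFn fun i => C.val x (w i)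

/-- The circuit with output wire `o` computes `f`: the output is positive iff `f` holds. -/
def GC.Computes {n s : ℕ} (C : GC n s) (o : Fin (n + s)) (f : (Fin n → Bool) → Prop) : Prop :=
  ∀ x, 0 < C.val x o ↔ f x

/-- At most `K` different patterns along every increasing sequence of inputs. -/
def GC.PatLE {n s : ℕ} (C : GC n s) (K : ℕ) : Prop :=
  ∀ x : ℕ → (Fin n → Bool), Monotone x → (Set.range fun i => C.pat (x i)).encard ≤ K

/-- At most `K` different patterns along every increasing sequence of inputs that agree outside the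
edge set `U`. -/
def GC.LocLE {M s : ℕ} (C : GC (M * M) s) (U : Finset (Fin M × Fin M)) (K : ℕ) : Prop :=
  ∀ x : ℕ → (Fin (M * M) → Bool), Monotone x → (∀ i j, AgreeOff U (x i) (x j)) →
    (Set.range fun i => C.pat (x i)).encard ≤ K

/-- The wires read by the arbitrary gates. -/
def GC.rd {n : ℕ} : {s : ℕ} → GC n s → Set (Fin (n + s))
  | _, GC.nil => ∅
  | _, GC.mono C _ _ _ _ => Fin.castSucc '' C.rd
  | _, GC.free C _ w _ => Fin.castSucc '' (C.rd ∪ Set.range w)

/-- The values of the wires if every arbitrary gate is replaced by the constant which is its value on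
the input `b`. -/
def GC.star {n : ℕ} : {s : ℕ} → GC n s → (Fin n → Bool) → (Fin n → Bool) → (Fin (n + s) → ℝ)
  | _, GC.nil, _, x => fun i => if x i = true then 1 else 0
  | _, GC.mono C φ _ i j, b, x =>
      Fin.snoc (α := fun _ => ℝ) (C.star b x) (φ (C.star b x i) (C.star b x j))
  | _, GC.free C _ w g, b, x =>
      Fin.snoc (α := fun _ => ℝ) (C.star b x) (g fun i => C.val b (w i))

end Pool.Agent.LN
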