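import Pool.Agent.helper69.LN.Defs

/-!
# Project LN (MP_069684_lc): negations are needed everywhere. Specification

THEOREM. (1) For every `ε > 0` there are `δ > 0`, `v0`: if `v ≥ v0`, `2 v ≤ k`, `k + v² ≤ M`, and `U` is any
set of edges touching at least `v` vertices, then a circuit with `s` gates for the `k`-clique
function on `M` vertices which takes at most `K ≤ v^(1-ε)` NOT-vectors along every increasing
sequence of inputs that agree outside `U` has `s ≥ 2^(v^δ)`.
(2) If `2^u(n) ≤ n^c + c`: `NP/Poly = P/Poly` iff all languages of `NP/Poly` monotone in the first `u(n)` bits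
have poly-size circuits whose NOT gates do not depend on these bits; the latter fails unless
`min(u(n), n) ≤ c (lg n)^c`. (3) Quasi-polynomial size: exact.

RULES. Row `X`: file `Pool/Agent/<seat>/LN/X.lean`, `import Pool.Agent.helper69.LN.Spec`, `set_option autoImplicit
false`, `namespace Pool.Agent.LN`, `theorem X (h1 : Y_stmt) ... : X_stmt` (other statements of this file may be
hypotheses, no circles). Auxiliary lemmas prefixed `X_`. No `convert`/`congr!` on instances, no
`native_decide`, no double quotes, no `macro`/`notation`. Land, lock note DONE, one line to helper69.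
-/

set_option autoImplicit false

namespace Pool.Agent.LN

open Finset Pool.Agent.helper38.Neg Pool.Agent.helper55.NT

/-! ## A. The projection -/

/-- **STAR** (medium). Let `T = touch U`; every vertex of `T` has a neighbour in `T` (neighbour: `(a,b)` or `(b,a)` in `U`;
no loops by the hypothesis). Let `D ⊆ T` be of minimal size such that every vertex of `T \ D` has a
neighbour in `D` (`T` itself is such a set). Then every vertex `d` of `D` has a neighbour in `T \ D`: otherwise all its
neighbours are in `D`, and `D.erase d` is still dominating (`d` has a neighbour, which lies in `D.erase d`; a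
vertex of `T \ D` dominated by `d` would be a neighbour of `d` in `T \ D`). So `T \ D` dominates `D` and
`D` dominates `T \ D`; the larger of the two sets, `P`, has at least `|T|/2 ≥ r²/2 ≥ r(r-1)/2 = |Pr r|` elements:
choose an injection `leaf : Pr r → P` and for every leaf a neighbour in the other set. -/
def STAR_stmt : Prop := ∀ (M r : ℕ) (U : Finset (Fin M × Fin M)), (∀ e ∈ U, e.1 < e.2) →
  r ^ 2 ≤ (touch U).card → Nonempty (Star M r U)

/-- **GA** (medium). From a clique of the gadget graph to a clique of `x`. The classes of the elements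
of `S` are different (`adj`), and `|S|` is the number of classes, so `S` has one label of every class
(`Finset.eq_of_injective..`/`Fintype.bijective_iff_injective_and_card`). Let `(i, c i) ∈ S` for every slot
`i`. For `i < j` let `(ij, cd) ∈ S`: as it does not conflict with `(i, c i)`, `(j, c j)`: `cd = (c i, c j)`, so `c i < c j`. The label of
`S` in the class of the pair `e = (c i, c j)` is not the twin (conflict), so it is the leaf `(e, true)`, and the centre `cen e`
is in `S`: `vr` gives `x e = true`. The set `image c univ` has `l` elements (`c` strictly increasing); for `a < b`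
in it `a = c i`, `b = c j`, `i < j`. -/
def GA_stmt : Prop := ∀ (M r l w : ℕ) (cen : Pr r → Fin M) (x : Pr r → Bool)
  (S : Finset (Vt cen l w)), S.card = Nat.card (Kl cen l w) →
  (∀ α ∈ S, ∀ β ∈ S, α ≠ β → adj x α β) →
  ∃ R : Finset (Fin r), R.card = l ∧ ∀ a ∈ R, ∀ b ∈ R, ∀ h : a < b, x ⟨(a, b), h⟩ = true

/-- **GB** (medium). From a clique of `x` to a clique of the gadget graph. `c = R.orderEmbOfFin`. For every class choose the label:
the centre; `(e, b)` with `b = true` iff `e = (c i, c j)` for some `i < j`; `(i, c i)`; `(ij, (c i, c j))`; the universal vertex.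
`S` = image of this map (injective, since `cls` of the label is the class); check `adj` by cases. -/
def GB_stmt : Prop := ∀ (M r l w : ℕ) (cen : Pr r → Fin M) (x : Pr r → Bool) (R : Finset (Fin r)),
  R.card = l → (∀ a ∈ R, ∀ b ∈ R, ∀ h : a < b, x ⟨(a, b), h⟩ = true) →
  ∃ S : Finset (Vt cen l w), S.card = Nat.card (Kl cen l w) ∧
    ∀ α ∈ S, ∀ β ∈ S, α ≠ β → adj x α β

/-- **EMB** (medium). Number of classes: `|Ctr| + |Pr r| + l + |Pr l| + w` with `|Ctr| ≤ |Pr r| = r(r-1)/2`, `l ≤ r`, so without `w` it is at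
most `2 r²`: choose `w` with total `k`. Number of labels: `k + |Pr r| + l r - l + |Pr l| |Pr r| - |Pr l| ≤ k + r⁴`. The labels `q`
and `(e, true)` have prescribed different places `q`, `leaf e`; the other labels are placed injectively in the
complement of these places (`Function.Embedding.nonempty_of_card_le`). -/
def EMB_stmt : Prop := ∀ (M r l k : ℕ) (U : Finset (Fin M × Fin M)) (S : Star M r U), 2 ≤ r →
  l ≤ r → 2 * r ^ 2 ≤ k → k + r ^ 4 ≤ M →
  ∃ (w : ℕ) (φ : Vt S.cen l w → Fin M), Nat.card (Kl S.cen l w) = k ∧ Function.Injective φ ∧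
    (∀ q, φ (Sum.inl q) = q.1) ∧ ∀ e, φ (Sum.inr (Sum.inl (e, true))) = S.leaf e

/-- **PRJ** (medium, long). From STAR, GA, GB, EMB. For `u < v` in `Fin M`: if `u = φ α`, `v = φ β` with `cls α ≠ cls β` and no
conflict: `σ (u,v)` is the input bit of `e` if `vr α β e` or `vr β α e` for some (unique) `e`, and the constant `true` if there is no
such `e`; in all other cases (also `v ≤ u`) the constant `false`. Then for `u < v` the bit `(u,v)` of `sb σ x` is
`true` iff `u = φ α`, `v = φ β`, `adj (bit x) α β` (`adj` is symmetric), so the `k`-cliques are the images of the sets `S` of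
GA/GB (`k ≥ 2`, so all vertices of a `k`-clique are in the range of `φ`; take the preimage). `Clique r l x` says the
conclusion of GA for `bit x`. If `σ (u,v) = inl _` then `{u,v} = {leaf e, cen e}`, so `(u,v) ∈ U` by `Star.mem` and `u < v`
(the elements of `U` satisfy `e.1 < e.2`). -/
def PRJ_stmt : Prop := ∀ (M r l k : ℕ) (U : Finset (Fin M × Fin M)), (∀ e ∈ U, e.1 < e.2) →
  r ^ 2 ≤ (touch U).card → 2 ≤ r → l ≤ r → 2 * r ^ 2 ≤ k → k + r ^ 4 ≤ M →
  ∃ σ : Fin (M * M) → Fin (r * r) ⊕ Bool,
    (∀ x : Fin (r * r) → Bool, Clique M k (sb σ x) ↔ Clique r l x) ∧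
    ∀ (e : Fin M × Fin M) (i : Fin (r * r)), σ (finProdFinEquiv e) = Sum.inl i → e ∈ U

/-- **SUB** (short, medium). Substitution in circuits. `C'` starts with the gates `const false`, `const true`, then the gates of `C`;
a map `ρ` sends the wire `i < N` to the wire `σ i` (an input or one of the two constant gates) and the gate wire
`N + j` to `n + 2 + j` (recursion on `C`). By induction `C'.val x (ρ w) = C.val (sb σ x) w` and
`C'.notVals x = C.notVals (sb σ x)`. -/
def SUB_stmt : Prop := ∀ (N n s : ℕ) (σ : Fin N → Fin n ⊕ Bool) (C : Circuit N s),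
  ∃ C' : Circuit n (2 + s), (∀ x, C'.notVals x = C.notVals (sb σ x)) ∧
    ∀ o : Fin (N + s), ∃ o' : Fin (n + (2 + s)), ∀ x, C'.val x o' = C.val (sb σ x) o

/-- **LBU** (medium; the lower bound). From PRJ, SUB and `clique_final` (helper38/Neg/ClqFinal.lean) for `ε/2`: `δ₁`, `M₁`. Let
`r = ⌊√v⌋` (`Nat.sqrt v`; `v/4 ≤ r² ≤ v`), `l = ⌊r^δ₁⌋` (`δ₁ ≤ 1` may be assumed, `l ≤ r`). `2 r² ≤ 2 v ≤ k`, `k + r⁴ ≤ k + v² ≤ M`. The
circuit `C'` of SUB computes `Clique r l`, and takes at most `K ≤ v^(1-ε) ≤ (v/4)^(1-ε/2) ≤ (r²)^(1-ε/2)` NOT-vectors along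
every increasing sequence (`sb σ` is monotone, the inputs `sb σ x` agree outside `U`). So
`2^(√(l/2) - 3) ≤ s + 3`, and `√(l/2) - 3 ≥ v^δ + 2` for `δ = δ₁/8` and large `v`. -/
def LBU_stmt : Prop := ∀ ε : ℝ, 0 < ε → ∃ δ : ℝ, 0 < δ ∧ ∃ v0 : ℕ, ∀ v : ℕ, v0 ≤ v →
  ∀ M k : ℕ, 2 * v ≤ k → k + v ^ 2 ≤ M → ∀ U : Finset (Fin M × Fin M), (∀ e ∈ U, e.1 < e.2) →
  v ≤ (touch U).card → ∀ (s K : ℕ) (C : Circuit (M * M) s) (o : Fin (M * M + s)),
  C.Computes o (Clique M k) → LocalLE C U K → (K : ℝ) ≤ (v : ℝ) ^ (1 - ε) →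
  (2 : ℝ) ^ ((v : ℝ) ^ δ) ≤ s

/-! ## B. The two-sided theorem -/

/-- **SFC** (short, medium). Copy the proof of `SL.toCircuit` (helper55/NT/SL.lean); for the NOT gate `notVals` gets one more
entry, `!(f x)`, which does not depend on the first `u` inputs. -/
def SFC_stmt : Prop := ∀ (n u : ℕ) (L : List (Fn n)), SF u L →
  ∃ C : Circuit n L.length, FreeOf u C ∧ ∀ f, Op L f → ∃ k, ∀ x, C.val x k = f x

/-- **ORC** (medium, long). From SFC. `f x = ⋁_a (⋀_{i : a i = true} x i) ∧ f(a, x)` over `a : Fin (min u n) → Bool`, where `(a,x)` has the bits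
`a i` for `i < u` and `x i` for `i ≥ u` (`f` is monotone in the first `u` inputs). For every `a` append to the computation: the
constants, the gates of `C` with the first `u` inputs replaced by the constants `a i` (all these functions do not depend on the
first `u` inputs, so that NOT gates are allowed in `SF`), at most `u + 1` gates for the conjunction, one AND and
one OR. (Lemma: if `SF u L` then for every `a` there is `L'` with `SF u L'`, `L'.length ≤ L.length + s + u + 6`, all operands of `L` are
operands of `L'`, and so is the term of `a`; induction over the set of all `a`.) -/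
def ORC_stmt : Prop := ∀ (n s u : ℕ) (C : Circuit n s) (o : Fin (n + s)) (f : (Fin n → Bool) → Prop),
  C.Computes o f → MonoIn u f →
  ∃ s' ≤ 2 ^ u * (s + u + 8) + 2, ∃ (C' : Circuit n s') (o' : Fin (n + s')), C'.Computes o' f ∧
    FreeOf u C'

/-- **PNP** (medium). As `dbl_inNPPoly` in helper55/NT/Dbl.lean (simpler): for `m = n + c + n` use the circuit of `A n` with renamed inputs
(`Circuit.toChain`, `HasCost.rename`, `Chain.toCircuit`), `n ≤ m`; for other `m` the constant `false`. -/
def PNP_stmt : Prop := ∀ (c : ℕ) (A : Lang), InNPPoly A → InNPPoly (Pd c A)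

/-- **PCI** (short). From SUB: `σ` sends the dummy bits to the constant `false` (the value does not matter) and the last `n` bits to the
`n` inputs. `Pd c A (n + c + n)` of a word is `A n` of its last `n` bits (the `n` in the definition of `Pd` is unique). -/
def PCI_stmt : Prop := ∀ (c n s : ℕ) (A : Lang) (C : Circuit (n + c + n) s) (o : Fin (n + c + n + s)),
  C.Computes o (Pd c A (n + c + n)) →
  ∃ (C' : Circuit n (2 + s)) (o' : Fin (n + (2 + s))), C'.Computes o' (A n)

/-- **PMO** (short). If `u ≤ n + c` for `m = n + c + n` then `Pd c A m` does not depend on the first `u m` bits. (`∀ n, u (n + c + n) ≤ n + c`.) -/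
def PMO_stmt : Prop := ∀ (c : ℕ) (u : ℕ → ℕ) (A : Lang), (∀ n, u (n + c + n) ≤ n + c) →
  ∀ m, MonoIn (u m) (Pd c A m)

/-- **ARI** (medium). Elementary growth: `2^(n + c) > (2 n + c)^b + b` and `n + c > b (lg (2n + c))^b` for all `n` if `c` is large in terms of
`b` (`lg m = Nat.log 2 (m + 2)`). In the second case `min (u m) m ≤ b (lg m)^b < n + c ≤ m` gives `u m < n + c`. -/
def ARI_stmt : Prop := (∀ b : ℕ, ∃ c : ℕ, ∀ u : ℕ → ℕ, (∀ n, 2 ^ u n ≤ n ^ b + b) →
    ∀ n, u (n + c + n) ≤ n + c) ∧
  ∀ b : ℕ, ∃ c : ℕ, ∀ u : ℕ → ℕ, (∀ n, min (u n) n ≤ b * lg n ^ b) → ∀ n, u (n + c + n) ≤ n + c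

/-- **HNP** (medium). `HC` is in `NP/Poly`: guess a matrix `g : Fin K × Fin M → Bool`, `M = √n`, `K = M/2` (`w = K M ≤ n`); check: every
slot `i` has some `v` with `g (i,v)`; for `i ≠ j` and all `v`: not (`g (i,v)` and `g (j,v)`); for `i ≠ j`, `u < v`: `g (i,u)`,
`g (j,v)` imply the input bit `(u,v)`. Polynomially many gates: `HasCost.all`, `HasCost.any`, `HasCost.toCircuit`-like lemmas of
helper38/Neg/Nondet.lean (see `verify_cost`, `lang_inNPPoly` there). From a guess: choose `v i` with `g (i, v i)`: different, a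
clique of size `K`. Conversely enumerate the clique. -/
def HNP_stmt : Prop := InNPPoly HC ∧ ∀ n, Monotone (HC n)

/-- **GRO** (medium). From LBU (`ε = 1/2`, `K = 1`), HNP. Let `QuasiFree u HC` (from the hypothesis; a monotone slice is `MonoIn`). Given `n`: `M = √n`,
`k = M/2`, `v = min (u n) (√M / 4)` (natural square root), so that `2 v ≤ k`, `k + v² ≤ M` (for `M` large). `U` = the pairs
`(0, b)`, `1 ≤ b < min (u n) M`: their positions are `b < u n`, and they touch at least `v` vertices. `C'` = the
circuit for `HC n` as a circuit on `M * M` inputs (SUB with `σ : Fin n → Fin (M*M) + Bool`, the superfluous bits are `false`);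
NOT-vectors do not change on inputs that agree outside `U` (`FreeOf`), so `LocalLE C' U 1`. So `2^(v^δ) ≤ 2 + 2^(k₁ (lg n)^k₁)`, and `v`,
hence `u n` or `√M / 4`, i.e. `min (u n) n`, is at most `c (lg n)^c`. Small `v` (`v < v0`), small `M`: constants. -/
def GRO_stmt : Prop := ∀ u : ℕ → ℕ, QuasiFree u HC → ∃ c, ∀ n, min (u n) n ≤ c * lg n ^ c

/-- **PCR** (medium). From ORC, PNP, PCI, PMO, ARI. (⇒): `InPPoly A` gives circuits of size `p(n)`, ORC gives
`(n^c + c)(p(n) + u(n) + 8) + 2`, `u n ≤ 2^(u n)`. (⇐): `Pd c₀ A`. -/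
def PCR_stmt : Prop := ∀ u : ℕ → ℕ, (∃ c, ∀ n, 2 ^ u n ≤ n ^ c + c) →
  ((∀ A, InNPPoly A → InPPoly A) ↔
    ∀ A, InNPPoly A → (∀ n, MonoIn (u n) (A n)) → PolyFree u A)

/-- **QCR** (medium). From ORC, PNP, PCI, PMO, ARI, GRO, HNP. (⇒): `GRO`; `Pd c₀ A` with ARI (second part). (⇐): ORC for `min (u n) n`
(`FreeOf` and `MonoIn` for `u` and for `min u n` are the same), size `2^(c (lg n)^c) (2^(k (lg n)^k) + ...) + 2`. -/
def QCR_stmt : Prop := ∀ u : ℕ → ℕ,
  (∀ A, InNPPoly A → (∀ n, MonoIn (u n) (A n)) → QuasiFree u A) ↔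
    (∃ c, ∀ n, min (u n) n ≤ c * lg n ^ c) ∧ ∀ A, InNPPoly A → InQuasi A

end Pool.Agent.LN
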