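import Pool.Agent.helper69.LN.GDefs
import Pool.Agent.helper69.LN.Spec

/-!
# Project LN (MP_069684_lc), part G: circuits with monotone real gates and arbitrary gates

Common generalisation of CliqueNegations and MonotoneCombinations, and the local theorem for it.
RULES as in Spec.lean: row `X`: file `Pool/Agent/<seat>/LN/X.lean`, `import Pool.Agent.helper69.LN.GSpec`.
-/

set_option autoImplicit false

namespace Pool.Agent.LN

open Finset Pool.Agent.helper38.Neg Pool.Agent.helper55.NT Pool.Agent.helper83.Comb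

/-- **GST** (medium). By induction on the circuit.
(1) `star` is nondecreasing in `x`. (2) `star b b = val b`. (3) If `pat x = pat b` then `star b x = val x`, and on the wires
read by arbitrary gates `val x i = val b i` (the lists have equal lengths; `List.append_inj`, `List.ofFn_injective`; then the arbitrary
gate has the same value). (4) If `b ≤ x` and `pat x ≠ pat b`, then some wire `i` read by an arbitrary gate has
`val b i < star b x i`: take the first arbitrary gate whose tuple changes: in the circuit before it the pattern is the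
same, so there `star b x = val x` by (3) and `val b = star b b ≤ star b x` by (1), (2), and some wire of the tuple has
different values. (5) Convexity: `x ≤ y ≤ z`, `pat x = pat z` imply `pat y = pat x`: by induction, for the circuit before the
last arbitrary gate the three patterns agree, so `val x ≤ val y ≤ val z` (values are `star x` of the inputs, (1), (3)) and the tuples of
`x` and `z` agree. -/
def GST_stmt : Prop := ∀ (n s : ℕ) (C : GC n s),
  (∀ b x y, x ≤ y → C.star b x ≤ C.star b y) ∧ (∀ b, C.star b b = C.val b) ∧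
  (∀ b x, C.pat x = C.pat b → C.star b x = C.val x ∧ ∀ i ∈ C.rd, C.val x i = C.val b i) ∧
  (∀ b x, b ≤ x → C.pat x ≠ C.pat b → ∃ i ∈ C.rd, C.val b i < C.star b x i) ∧
  ∀ x y z, x ≤ y → y ≤ z → C.pat x = C.pat z → C.pat y = C.pat x

/-- **GCH** (short, medium). Copy `rchain_build` in helper83/Comb/RWalk.lean: `mono` gates are gates of the computation, `free` gates
are constants (`RAvail` contains the constants). -/
def GCH_stmt : Prop := ∀ (n s : ℕ) (κ : Type) (C : GC n s) (b : Fin n → Bool)
  (X : (κ → Bool) → (Fin n → Bool)), (∀ i, (∃ c, ∀ y, X y i = c) ∨ ∃ k, ∀ y, X y i = y k) →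
  ∃ L, RChain L ∧ L.length ≤ s ∧ ∀ k, RAvail L (fun y => C.star b (X y) k)

/-- **GWK** (medium, long). From GST, GCH. As `rwalk` in helper83/Comb/RWalk.lean, with `V = C.pat`. The chain argument: if for every valid `c`, `j < K`
there is a negative `y` with `pat (G (update c j y)) ≠ pat (G c)` then one gets an increasing sequence `G (c 0) ≤ G (c 1) ≤ ...` with
`pat (G (c (i+1))) ≠ pat (G (c i))` for `i < K`; by the convexity (GST 5) all `K + 1` patterns are different, contradiction. So there are `c`, `j` with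
`pat (X y) = pat b` for all negative `y`, `X y = G (update c j y)`, `b = G c ≤ X y`. The functions `F`: `star b (X y) i`, `i ∈ rd`, with the threshold `> val b i`,
and `star b (X y) o` with the threshold `> 0` (thresholds `θ ≤ ·` as in `rwalk`, there are finitely many `y`). Negative `y`: `star = val` and the values on `rd` are those
of `b`, `val (X y) o ≤ 0` (GST 3). Positive `y`: if `pat (X y) = pat b` then `star b (X y) o = val (X y) o > 0`; otherwise GST 4. -/
def GWK_stmt : Prop := ∀ (n s K : ℕ) (κ : Type) [Finite κ] (C : GC n s) (o : Fin (n + s))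
  (f : (Fin n → Bool) → Prop) (h : (κ → Bool) → Prop) (G : (ℕ → κ → Bool) → (Fin n → Bool)),
  (∀ i, (∀ c, G c i = false) ∨ ∃ l k, ∀ c, G c i = c l k) →
  (∀ c, f (G c) ↔ ∃ l < K, h (c l)) → ¬ h (fun _ => false) →
  C.Computes o f → C.PatLE K →
  ∃ L : List ((κ → Bool) → ℝ), RChain L ∧ L.length ≤ s ∧
    ∃ (N : ℕ) (F : Fin N → (κ → Bool) → ℝ) (θ : Fin N → ℝ), (∀ i, RAvail L (F i)) ∧
      ∀ y, (∃ i, θ i ≤ F i y) ↔ h y

/-- **GCL** (medium: copy). From GWK. Copy helper83/Comb/Final.lean (`rclique_size_fam` with `rwalk` replaced by GWK, and `rclique_final`). -/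
def GCL_stmt : Prop := ∀ ε : ℝ, 0 < ε → ∃ δ : ℝ, 0 < δ ∧ ∃ M0 : ℕ, ∀ M : ℕ, M0 ≤ M →
  ∀ k : ℕ, (k : ℝ) ≤ (M : ℝ) ^ δ → ∀ (s K : ℕ) (C : GC (M * M) s) (o : Fin (M * M + s)),
  C.Computes o (Clique M k) → C.PatLE K → (K : ℝ) ≤ ((M : ℝ) ^ 2) ^ (1 - ε) →
  (2 : ℝ) ^ (Real.sqrt k / 2 - 3) ≤ s + 1

/-- **GSB** (medium). Substitution, as SUB: `C'` starts with two constant gates `0`, `1` (`free` gates with `m = 0`, which add nothing to the pattern), then the
gates of `C` with renamed wires. -/
def GSB_stmt : Prop := ∀ (N n s : ℕ) (σ : Fin N → Fin n ⊕ Bool) (C : GC N s),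
  ∃ C' : GC n (2 + s), (∀ x, C'.pat x = C.pat (sb σ x)) ∧
    ∀ o : Fin (N + s), ∃ o' : Fin (n + (2 + s)), ∀ x, C'.val x o' = C.val (sb σ x) o

/-- **GLB** (medium; the local lower bound). From PRJ, GSB, GCL; the same proof as LBU (row of helper74; wait for it and copy), with
`2^(√l / 2 - 3) ≤ s + 3`. -/
def GLB_stmt : Prop := ∀ ε : ℝ, 0 < ε → ∃ δ : ℝ, 0 < δ ∧ ∃ v0 : ℕ, ∀ v : ℕ, v0 ≤ v →
  ∀ M k : ℕ, 2 * v ≤ k → k + v ^ 2 ≤ M → ∀ U : Finset (Fin M × Fin M), (∀ e ∈ U, e.1 < e.2) →
  v ≤ (touch U).card → ∀ (s K : ℕ) (C : GC (M * M) s) (o : Fin (M * M + s)),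
  C.Computes o (Clique M k) → C.LocLE U K → (K : ℝ) ≤ (v : ℝ) ^ (1 - ε) →
  (2 : ℝ) ^ ((v : ℝ) ^ δ) ≤ s

end Pool.Agent.LN
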