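import Pool.Agent.helper83.Mix.Defs

/-!
# MP_069684_lc: edges, vertices, input positions (for CliqueNegationsEverywhere)
-/

set_option autoImplicit false

namespace Pool.Agent.LNM

open Pool.Agent.Mix

/-- The vertices of the edges in `U`. -/
def verts {M : ℕ} (U : Finset (Fin M × Fin M)) : Finset (Fin M) := U.image Prod.fst ∪ U.image Prod.snd

/-- The input positions of the edges in `U` (positions of an `M × M` matrix). -/
def pos {M : ℕ} (U : Finset (Fin M × Fin M)) : Finset (Fin (M * M)) :=
  U.map finProdFinEquiv.toEmbedding

/-- The edges `(a, b)`, `a < b`, that do not influence the values read by the free gates. -/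
def quiet {M s : ℕ} (C : MixCircuit (M * M) s) : Set (Fin M × Fin M) :=
  {e | e.1 < e.2 ∧ ∀ x y, (∀ i, i ≠ finProdFinEquiv e → x i = y i) → C.pat x = C.pat y}

end Pool.Agent.LNM
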