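import Pool.Agent.helper69.LN.Defs
import Pool.Agent.helper38.Neg.Lang

/-!
# Project LN (MP_069684_lc), part T: the threshold for every set of input bits. Definitions
-/

set_option autoImplicit false

namespace Pool.Agent.LN

open Finset Pool.Agent.helper38.Neg Pool.Agent.helper55.NT

/-- All NOT gates, except at most `r` of them, do not depend on the first `u` inputs. -/
def FewDep (u r : ℕ) {n s : ℕ} (C : Circuit n s) : Prop :=
  ∃ S : Finset ℕ, S.card ≤ r ∧ ∀ x y, AgreeFrom u x y → ∀ i, i ∉ S →
    (C.notVals x)[i]? = (C.notVals y)[i]?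

/-- At most `K` NOT-vectors along every increasing sequence of inputs which agree on the inputs with
index at least `u`. -/
def LocPat (u K : ℕ) {n s : ℕ} (C : Circuit n s) : Prop :=
  ∀ x : ℕ → (Fin n → Bool), Monotone x → (∀ i j, AgreeFrom u (x i) (x j)) →
    (Set.range fun i => C.notVals (x i)).encard ≤ K

/-- Polynomial size circuits in which at most `r n` NOT gates depend on the first `u n` inputs. -/
def PolyFew (u r : ℕ → ℕ) (A : Lang) : Prop :=
  ∃ p : Polynomial ℕ, ∀ n, ∃ s ≤ p.eval n, ∃ (C : Circuit n s) (o : Fin (n + s)),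
    C.Computes o (A n) ∧ FewDep (u n) (r n) C

/-- Quasi-polynomial size circuits in which at most `r n` NOT gates depend on the first `u n`
inputs. -/
def QuasiFew (u r : ℕ → ℕ) (A : Lang) : Prop :=
  ∃ k : ℕ, ∀ n, ∃ s ≤ 2 ^ (k * lg n ^ k), ∃ (C : Circuit n s) (o : Fin (n + s)),
    C.Computes o (A n) ∧ FewDep (u n) (r n) C

/-- Straight line computations; `q` counts the NOT gates which are applied to functions that depend
on the first `u` inputs. -/
inductive SX {n : ℕ} (u : ℕ) : List (Fn n) → ℕ → Prop
  | nil : SX u [] 0
  | const {L q} (b : Bool) : SX u L q → SX u ((fun _ => b) :: L) q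
  | and {L q f g} : SX u L q → Op L f → Op L g → SX u ((fun y => f y && g y) :: L) q
  | or {L q f g} : SX u L q → Op L f → Op L g → SX u ((fun y => f y || g y) :: L) q
  | not0 {L q f} : SX u L q → Op L f → (∀ x y, AgreeFrom u x y → f x = f y) →
      SX u ((fun y => !(f y)) :: L) q
  | not1 {L q f} : SX u L q → Op L f → SX u ((fun y => !(f y)) :: L) (q + 1)

/-- The input `z` followed by the negations of its bits with index at least `u`. -/
def io (u : ℕ) {n : ℕ} (z : Fin n → Bool) : Fin (n + n) → Bool :=
  Fin.append z fun i => if (i : ℕ) < u then false else !(z i)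

/-- The language `lang` on the first `min (u n) n` bits. -/
noncomputable def PL (u : ℕ → ℕ) : Lang := fun n x =>
  lang (min (u n) n) fun i => x (Fin.castLE (min_le_right _ _) i)

end Pool.Agent.LN
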