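import Pool.Agent.helper69.LN.TSpec

/-!
# Row TSI of the project LN (MP_069684_lc): simulation on a range of levels

A copy of `sim_rel` (helper55/NT/Sim.lean), started at the level `k0`.
-/

set_option autoImplicit false

namespace Pool.Agent.LN

open Finset Pool.Agent.helper38.Neg Pool.Agent.helper55.NT

theorem TSI_rel {n s : ℕ} (f : Fn n) (hf : Mon f) (C : Circuit n s) (o : Fin (n + s))
    (hC : ∀ x, C.val x o = f x) (k0 b r : ℕ) :
    Rel ∅ ((n + 1) ^ b * (2 * (n + 2) ^ 2) + 2 ^ r * (b * ((n + 1) ^ b * (2 * s + 2))) +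
      6 * 2 ^ r + 2) r
      {fun x => (decide (k0 ≤ wt x) && (decide (k0 + b * 2 ^ r ≤ wt x) || f x))} := by
  obtain ⟨m, hm⟩ : ∃ m, 2 ^ r = m + 1 := ⟨2 ^ r - 1, by
    have : 0 < 2 ^ r := by positivity
    omega⟩
  set t : ℕ → Fn n := fun j => T ∅ (k0 + (j + 1) * b) with ht
  have htx : ∀ j x, t j x = decide (k0 + (j + 1) * b ≤ wt x) := by
    intro j x
    simp only [ht, T, rem_empty]
  have hW : ∀ k x, W f k b ∅ x = (decide (k ≤ wt x) && (decide (k + b ≤ wt x) || f x)) := by
    intro k x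
    simp only [W, T, rem_empty]
  have hsort : ∀ j x, t (j + 1) x = true → t j x = true := by
    intro j x
    rw [htx, htx, decide_eq_true_eq, decide_eq_true_eq]
    intro h
    refine le_trans ?_ h
    gcongr
    omega
  have h0 : Rel ∅ ((n + 1) ^ b * (2 * (n + 2) ^ 2)) 0 (F0 n b) := F0_rel b
  have h1 : Rel (F0 n b) (2 ^ r * (b * ((n + 1) ^ b * (2 * s + 2)))) 0
      (⋃ j ∈ Finset.range (2 ^ r), {W f (k0 + j * b) b ∅}) := by
    have := Rel.biUnion (F := F0 n b) (Finset.range (2 ^ r)) (fun j => {W f (k0 + j * b) b ∅})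
      (fun j _ => window_rel f hf C o hC (k0 + j * b) b)
    rwa [Finset.card_range] at this
  have h2 : Rel (F0 n b) (4 * 2 ^ r) r (Ns r t) := by
    refine (inv_rel r t hsort).mono ?_ subset_rfl le_rfl le_rfl
    intro g hg
    simp only [As, Set.mem_iUnion, Set.mem_singleton_iff] at hg
    obtain ⟨j, -, rfl⟩ := hg
    exact T_mem_F0 _ _
  have h3 := h1.union h2
  set F : Set (Fn n) := (⋃ j ∈ Finset.range (2 ^ r), {W f (k0 + j * b) b ∅}) ∪ Ns r t with hF
  have hWF : ∀ j < 2 ^ r, W f (k0 + j * b) b ∅ ∈ F := by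
    intro j hj
    refine Or.inl ?_
    simp only [Set.mem_iUnion]
    exact ⟨j, Finset.mem_range.2 hj, rfl⟩
  have hNF : ∀ j < m, (fun x => !(t j x)) ∈ F := fun j hj => Or.inr (mem_Ns (by omega))
  have h4 : ∀ i ≤ m, Rel F (2 * i + 1) 0
      {fun x => (decide (k0 ≤ wt x) && (decide (wt x < k0 + i * b) && f x))} := by
    intro i
    induction i with
    | zero =>
      intro _
      refine (Rel.const F false).mono le_rfl ?_ (by omega) le_rfl
      rintro g rfl
      rw [Set.mem_singleton_iff]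
      funext x
      rw [Bool.eq_false_iff]
      intro hx
      simp only [Bool.and_eq_true, decide_eq_true_eq, zero_mul, add_zero] at hx
      omega
    | succ i ih =>
      intro hi
      have h5 := ih (by omega)
      have h6 : Rel F 1 0 {fun x => W f (k0 + i * b) b ∅ x && (!(t i x))} :=
        Rel.and (hWF i (by omega)) (hNF i (by omega))
      have h7 := h5.union h6
      have h8 : Rel (F ∪ ({fun x => (decide (k0 ≤ wt x) && (decide (wt x < k0 + i * b) && f x))} ∪
          {fun x => W f (k0 + i * b) b ∅ x && (!(t i x))})) 1 0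
          {fun x => (decide (k0 ≤ wt x) && (decide (wt x < k0 + i * b) && f x)) ||
            (W f (k0 + i * b) b ∅ x && (!(t i x)))} :=
        Rel.or (u := fun x => (decide (k0 ≤ wt x) && (decide (wt x < k0 + i * b) && f x)))
          (v := fun x => W f (k0 + i * b) b ∅ x && (!(t i x)))
          (Or.inr (Or.inl rfl)) (Or.inr (Or.inr rfl))
      refine (h7.trans' h8).mono le_rfl ?_ (by omega) le_rfl
      rintro g rfl
      rw [Set.mem_singleton_iff]
      funext x
      rw [hW, htx]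
      have hib : k0 + i * b + b = k0 + (i + 1) * b := by ring
      rw [hib]
      rw [Bool.eq_iff_iff]
      simp only [Bool.and_eq_true, Bool.or_eq_true, decide_eq_true_eq, Bool.not_eq_true',
        decide_eq_false_iff_not, not_le]
      have hle : k0 + i * b ≤ k0 + (i + 1) * b := by omega
      constructor
      · rintro ⟨a0, a1, a2⟩
        by_cases a3 : wt x < k0 + i * b
        · exact Or.inl ⟨a0, a3, a2⟩
        · exact Or.inr ⟨⟨by omega, Or.inr a2⟩, a1⟩
      · rintro (⟨a0, a1, a2⟩ | ⟨⟨a1, a2⟩, a3⟩)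
        · exact ⟨a0, by omega, a2⟩
        · refine ⟨by omega, a3, ?_⟩
          rcases a2 with a2 | a2
          · omega
          · exact a2
  have h5 := h4 m le_rfl
  have h6 : Rel (F ∪ {fun x => (decide (k0 ≤ wt x) && (decide (wt x < k0 + m * b) && f x))}) 1 0
      {fun x => (decide (k0 ≤ wt x) && (decide (wt x < k0 + m * b) && f x)) ||
        W f (k0 + m * b) b ∅ x} :=
    Rel.or (u := fun x => (decide (k0 ≤ wt x) && (decide (wt x < k0 + m * b) && f x)))
      (Or.inr rfl) (Or.inl (hWF m (by omega)))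
  have h7 := h5.trans' h6
  have h8 := h3.trans' (h7.mono (F' := F0 n b ∪ F) Set.subset_union_right le_rfl le_rfl le_rfl)
  have h9 := h0.trans' (h8.mono (F' := ∅ ∪ F0 n b) Set.subset_union_right le_rfl le_rfl le_rfl)
  refine h9.mono le_rfl ?_ ?_ (by omega)
  · rintro g rfl
    rw [Set.mem_singleton_iff]
    funext x
    rw [hW]
    have hmb : k0 + m * b + b = k0 + b * 2 ^ r := by rw [hm]; ring
    rw [hmb]
    have hle : k0 + m * b ≤ k0 + b * 2 ^ r := by omega
    rw [Bool.eq_iff_iff]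
    simp only [Bool.and_eq_true, Bool.or_eq_true, decide_eq_true_eq]
    constructor
    · rintro ⟨a0, a1 | a1⟩
      · exact Or.inr ⟨by omega, Or.inl a1⟩
      · by_cases a2 : wt x < k0 + m * b
        · exact Or.inl ⟨a0, a2, a1⟩
        · exact Or.inr ⟨by omega, Or.inr a1⟩
    · rintro (⟨a0, a1, a2⟩ | ⟨a1, a2⟩)
      · exact ⟨a0, Or.inr a2⟩
      · exact ⟨by omega, a2⟩
  · rw [hm]
    generalize (m + 1) * (b * ((n + 1) ^ b * (2 * s + 2))) = A
    generalize (n + 1) ^ b * (2 * (n + 2) ^ 2) = A'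
    omega

theorem TSI : TSI_stmt := by
  intro n s f hf C o hC k0 b r hb h2
  refine ⟨_, (TSI_rel f hf C o hC k0 b r).mono le_rfl subset_rfl ?_ le_rfl, fun x h1 h3 => ?_⟩
  · have e1 : (n + 1) ^ b * (2 * (n + 2) ^ 2) ≤ 2 * (n + 2) ^ (b + 2) := by
      rw [pow_add]
      have : (n + 1) ^ b ≤ (n + 2) ^ b := Nat.pow_le_pow_left (by omega) _
      nlinarith [Nat.mul_le_mul_right ((n + 2) ^ 2) this]
    have e2 : 2 ^ r * (b * ((n + 1) ^ b * (2 * s + 2))) ≤
        4 * (b * (s + 1)) * (n + 2) ^ (b + 2) := by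
      have a1 : (n + 1) ^ b * (n + 1) ≤ (n + 2) ^ (b + 2) := by
        rw [← pow_succ]
        exact (Nat.pow_le_pow_left (by omega) _).trans (Nat.pow_le_pow_right (by omega) (by omega))
      calc 2 ^ r * (b * ((n + 1) ^ b * (2 * s + 2)))
          ≤ (2 * n + 2) * (b * ((n + 1) ^ b * (2 * s + 2))) := Nat.mul_le_mul_right _ h2
        _ = 4 * (b * (s + 1)) * ((n + 1) ^ b * (n + 1)) := by ring
        _ ≤ 4 * (b * (s + 1)) * (n + 2) ^ (b + 2) := Nat.mul_le_mul_left _ a1
    have e3 : n + 2 ≤ (n + 2) ^ (b + 2) := Nat.le_self_pow (by omega) _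
    have e4 : 1 ≤ b * (s + 1) := Nat.mul_pos hb (by omega)
    set Q := (n + 2) ^ (b + 2) with hQ
    have e5 : Q ≤ b * (s + 1) * Q := Nat.le_mul_of_pos_left _ e4
    have e6 : 18 * b * (s + 1) * Q = 18 * (b * (s + 1) * Q) := by ring
    have e7 : 4 * (b * (s + 1)) * Q = 4 * (b * (s + 1) * Q) := by ring
    rw [e6]
    rw [e7] at e2
    omega
  · show (decide (k0 ≤ wt x) && (decide (k0 + b * 2 ^ r ≤ wt x) || f x)) = f x
    rw [decide_eq_true h1, decide_eq_false (not_le.2 h3)]
    simp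

end Pool.Agent.LN
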