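import Pool.Agent.helper69.LN.TDefs
import Pool.Agent.helper69.LN.Spec
import Pool.Agent.helper55.NT.Threshold

/-!
# Project LN (MP_069684_lc), part T: the threshold for every set of input bits

THE THEOREM (a common generalisation of NegationThreshold, `u = n`, and of PCR, QCR, `r = 0`). For
all `u, r : ℕ → ℕ`: all languages in NP/Poly monotone in the first `u(n)` bits have circuits of
quasi-polynomial size in which at most `r(n)` NOT gates depend on the first `u(n)` bits iff
`min(u(n), n) ≤ polylog(n) 2^r(n)` and NP/Poly has quasi-polynomial size circuits; polynomial size: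
equivalent to P/Poly = NP/Poly if `min(u(n), n) ≤ c (2^r(n) + lg n)`.

RULES as in Spec.lean: row `X`: file `Pool/Agent/<seat>/LN/X.lean`, `import Pool.Agent.helper69.LN.TSpec`,
`theorem X (h1 : ...) : X_stmt`, auxiliary lemmas prefixed `X_`.
-/

set_option autoImplicit false

namespace Pool.Agent.LN

open Finset Pool.Agent.helper38.Neg Pool.Agent.helper55.NT

/-- **TFP** (short, medium). `notVals` has length `notCount` for every input. The vector is determined by its values at
the indices in `S` (the other entries agree along the sequence, `List.ext_getElem?`), each is `none` for all `x` or `some b`: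
at most `2 ^ S.card` vectors (map to `S → Bool`, `i ↦ (C.notVals x)[i]?.getD false`, injective on the vectors of the sequence). -/
def TFP_stmt : Prop := ∀ (n s u r : ℕ) (C : Circuit n s), FewDep u r C → LocPat u (2 ^ r) C

/-- **TSC** (medium). Induction; see `SL.toCircuit` in helper55/NT/SL.lean and `SFC` in helper28/LN/SFC.lean. For a gate `not1` add the index
`notCount` (the length of the old `notVals`) to `S`; for a gate `not0` the new entry is `!(f x)`, the same for `x` and `y`. -/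
def TSC_stmt : Prop := ∀ (n u q : ℕ) (L : List (Fn n)), SX u L q →
  ∃ C : Circuit n L.length, FewDep u q C ∧ ∀ f, Op L f → ∃ k, ∀ x, C.val x k = f x

/-- **TTR** (medium). `L' = L.map (· ∘ io u) ++ B`, `B` = the `n` functions `!(z i)` (`not0`, for `i ≥ u`) and the constant `false`, so that
all bits of `io u z` are operands. Induction on `SL L q` (`SX` for `B` first, by induction over `List.finRange n` or over `k ≤ n`). -/
def TTR_stmt : Prop := ∀ (n u q : ℕ) (L : List (Fn (n + n))), SL L q →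
  ∃ L' : List (Fn n), SX u L' q ∧ L'.length ≤ L.length + n + 1 ∧
    ∀ f, Op L f → Op L' fun z => f (io u z)

/-- **TSI** (medium: copy of `sim_rel` in helper55/NT/Sim.lean with `T ∅ (k0 + (j + 1) * b)`, `W f (k0 + j * b) b ∅`, and
`fun x => decide (k0 ≤ wt x) && (decide (wt x < k0 + i * b) && f x)`; the size as in `sim_circuit`). -/
def TSI_stmt : Prop := ∀ (n s : ℕ) (f : Fn n), Mon f → ∀ (C : Circuit n s) (o : Fin (n + s)),
  (∀ x, C.val x o = f x) → ∀ k0 b r : ℕ, 1 ≤ b → 2 ^ r ≤ 2 * n + 2 →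
  ∃ h : Fn n, Rel ∅ (18 * b * (s + 1) * (n + 2) ^ (b + 2)) r {h} ∧
    ∀ x, k0 ≤ wt x → wt x < k0 + b * 2 ^ r → h x = f x

/-- **TFF** (medium). `w = (z, a)`: `g w` = (∃ i, u ≤ i, `z i` and `a i`) or ((∀ i, u ≤ i, `z i` or `a i`) and `f z`). Monotone: let
`w ≤ w'`, `g w`. If `g w'` does not hold by the first part then (the second part holds for `w`) exactly one of `z' i`, `a' i`
is 1 for all `i ≥ u`, so `z'` and `z` agree from `u` on, `z ≤ z'`, `f z'`. Circuit: `C` on the first `n` inputs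
(`HasCost.rename` as in helper19/LN/PNP.lean), `HasCost.any`, `HasCost.all` of helper38/Neg/Nondet.lean. `g (io u z) = f z`. -/
def TFF_stmt : Prop := ∀ (n s u : ℕ) (C : Circuit n s) (o : Fin (n + s)) (f : (Fin n → Bool) → Prop),
  C.Computes o f → MonoIn u f →
  ∃ g : Fn (n + n), Mon g ∧ (∀ z, g (io u z) = true ↔ f z) ∧
    ∃ s' ≤ s + 5 * n + 5, ∃ (C' : Circuit (n + n) s') (o' : Fin (n + n + s')), ∀ x, C'.val x o' = g x

/-- **TUP** (medium: the simulation). From TSC, TTR, TSI, TFF. `wt (io u z)` = (number of ones of `z` below `u`) + `(n - min u n)`, so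
it is in `[k0, k0 + min u n]`, `k0 = n - min u n`. If `2 ^ r > 2 * (n + n) + 2` replace `r` by the least `r'` with
`min u n + 1 ≤ 2 ^ r'` (then `2 ^ r' ≤ 2 n + 2`, `r' ≤ r`; `FewDep` is monotone in `r`). TSI for `g` of TFF gives a list
(`Rel ∅ m r {h}` for `L = []`), TTR, TSC. -/
def TUP_stmt : Prop := ∀ (n s u b r : ℕ) (C : Circuit n s) (o : Fin (n + s))
  (f : (Fin n → Bool) → Prop), C.Computes o f → MonoIn u f → 1 ≤ b → min u n + 1 ≤ b * 2 ^ r →
  ∃ s' ≤ 18 * b * (s + 5 * n + 6) * (n + n + 2) ^ (b + 2) + n + 1,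
    ∃ (C' : Circuit n s') (o' : Fin (n + s')), C'.Computes o' f ∧ FewDep u r C'

/-- **TFO** (short). `FreeOf u C → FewDep u 0 C` (`S = ∅`); `FewDep u r C → r ≤ r' → FewDep u r' C`; `MonoIn u f ↔ MonoIn (min u n) f` and
`FewDep (min u n) r C → FewDep u r C`, `FreeOf (min u n) C → FreeOf u C` (`AgreeFrom u x y ↔ AgreeFrom (min u n) x y` for `x y : Fin n → Bool`). -/
def TFO_stmt : Prop := (∀ (n s u : ℕ) (C : Circuit n s), FreeOf u C → FewDep u 0 C) ∧
  (∀ (n s u r r' : ℕ) (C : Circuit n s), FewDep u r C → r ≤ r' → FewDep u r' C) ∧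
  (∀ (n u : ℕ) (x y : Fin n → Bool), AgreeFrom u x y ↔ AgreeFrom (min u n) x y)

/-- **TNP** (medium). `InNPPoly`: as `PNP` in helper19/LN/PNP.lean, the verifier of `lang (min (u n) n)` (`lang_inNPPoly`) with renamed inputs.
Monotone: `lang_mono`. -/
def TNP_stmt : Prop := ∀ u : ℕ → ℕ, InNPPoly (PL u) ∧ ∀ n, Monotone (PL u n)

/-- **TLB** (medium: the lower bound). From SUB. `σ i = i` for `i < m = min (u n) n`, the other bits are `false`; `C'` on `m` inputs with the
NOT-vectors of `C`; increasing sequences go to increasing sequences which agree from `u n` on, so `C'.PatternsLE K`;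
`size_bound` (helper38/Neg/Lang.lean). -/
def TLB_stmt : Prop := ∀ (u : ℕ → ℕ) (n s K : ℕ) (C : Circuit n s) (o : Fin (n + s)),
  C.Computes o (PL u n) → LocPat (u n) K C → 2 ≤ min (u n) n →
  (2 : ℝ) ^ ((1 / 64 : ℝ) * (((min (u n) n : ℕ) : ℝ) /
    (K * Real.log ((min (u n) n : ℕ) : ℝ))) ^ ((1 : ℝ) / 4)) ≤ s + 4

/-- **TGR** (medium). From TLB. As `growth_of` in helper55/NT/Threshold.lean, with `m = min (u n) n`, `Real.log m ≤ Real.log n`. -/
def TGR_stmt : Prop := ∀ (u K : ℕ → ℕ) (k e : ℕ),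
  (∀ n, ∃ s ≤ 2 ^ (k * lg n ^ e), ∃ (C : Circuit n s) (o : Fin (n + s)),
    C.Computes o (PL u n) ∧ LocPat (u n) (K n) C) →
  ∃ c, ∀ n, min (u n) n ≤ c * lg n ^ (4 * e + 1) * K n

/-- **TPC** (medium: polynomial size). From ORC, TUP, TFO, TNP, TGR, TFP. First part: (⇒) for every `n` either
`min (u n) n ≤ 2 c 2 ^ r n`: TUP with `b = 2 c + 1`; or `min (u n) n ≤ 2 c lg n`: ORC with `min (u n) n` (size `(n+2)^(2c) (s + n + 8) + 2`)
and TFO. One polynomial for both. (⇐) `dbl A` is monotone, so `MonoIn`: `dbl_inNPPoly`, `dbl_mono`, `dbl_circuit` as in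
`poly_criterion` (helper55/NT/Threshold.lean). Second part: TNP, TFP, TGR (`e = 1`, `eval_le_two_pow`). -/
def TPC_stmt : Prop := ∀ u r : ℕ → ℕ,
  ((∃ c, ∀ n, min (u n) n ≤ c * (2 ^ r n + lg n)) → ((∀ A, InNPPoly A → InPPoly A) ↔
    ∀ A, InNPPoly A → (∀ n, MonoIn (u n) (A n)) → PolyFew u r A)) ∧
  ((∀ A, InNPPoly A → (∀ n, MonoIn (u n) (A n)) → PolyFew u r A) →
    ∃ c, ∀ n, min (u n) n ≤ c * lg n ^ 5 * 2 ^ r n)

/-- **TQC** (medium: quasi-polynomial size). From TUP, TNP, TGR, TFP. (⇒) TNP, TFP, TGR (`e = k`); `dbl A` as in `inQuasi_of_dbl`.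
(⇐) TUP with `b = c lg n ^ c + 1`, as in `quasiNots_of` (helper55/NT/Threshold.lean). -/
def TQC_stmt : Prop := ∀ u r : ℕ → ℕ,
  (∀ A, InNPPoly A → (∀ n, MonoIn (u n) (A n)) → QuasiFew u r A) ↔
    (∃ c, ∀ n, min (u n) n ≤ c * lg n ^ c * 2 ^ r n) ∧ ∀ A, InNPPoly A → InQuasi A

end Pool.Agent.LN
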